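import Mathlib

/-!
# Cut points and direct summands of a permutation
-/

set_option autoImplicit false

namespace Pool.Agent.helper54.Sum

open Finset Equiv

/-- `k` is a cut point of `w` : `k ≤ n` and `w` maps the set of the first `k` letters to itself.  The
intervals `[x, y)` between neighbouring cut points `x < y` are the direct summands of `w`. -/
def IsCut {n : ℕ} (w : Perm (Fin n)) (k : ℕ) : Prop :=
  k ≤ n ∧ ∀ i : Fin n, (i : ℕ) < k → (w i : ℕ) < k

instance {n : ℕ} (w : Perm (Fin n)) (k : ℕ) : Decidable (IsCut w k) :=
  inferInstanceAs (Decidable (_ ∧ _))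

/-- the number of direct summands of `w` : the number of its cut points `k ≥ 1` -/
def summands {n : ℕ} (w : Perm (Fin n)) : ℕ := ((Icc 1 n).filter fun k => IsCut w k).card

end Pool.Agent.helper54.Sum
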