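import Mathlib

/-!
# SUM-Cnt: counting a geometrically growing set

Proof.  The elements `z` of `Z` with `Nat.log 2 z = a` (`a ≤ Nat.log 2 n`) lie in `[2 ^ a, 2 ^ (a+1))`;
two of them, `x < y`, satisfy `2 ^ a ≤ x ≤ 100 (y - x)`, so `z ↦ 100 (z - 2 ^ a) / 2 ^ a < 100` is
injective on them: if `100 (x - 2 ^ a) / 2 ^ a = 100 (y - 2 ^ a) / 2 ^ a` then `100 (y - x) < 2 ^ a`.
So `z ↦ (Nat.log 2 z, 100 (z - 2 ^ (Nat.log 2 z)) / 2 ^ (Nat.log 2 z))` is injective on `Z`, with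
values in `range (Nat.log 2 n + 1) ×ˢ range 100`.
-/

set_option autoImplicit false

namespace Pool.Agent.helper54.Sum

private theorem cnt_aux {Z : Finset ℕ} (hZ : ∀ z ∈ Z, 1 ≤ z)
    (h : ∀ x ∈ Z, ∀ y ∈ Z, x < y → x ≤ 100 * (y - x)) {x y : ℕ} (hx : x ∈ Z) (hy : y ∈ Z)
    (hxy : x < y) (h1 : Nat.log 2 x = Nat.log 2 y)
    (h2 : 100 * (x - 2 ^ Nat.log 2 x) / 2 ^ Nat.log 2 x =
      100 * (y - 2 ^ Nat.log 2 y) / 2 ^ Nat.log 2 y) : False := by
  rw [← h1] at h2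
  set b : ℕ := 2 ^ Nat.log 2 x with hb
  have hb0 : 0 < b := by
    rw [hb]
    exact Nat.two_pow_pos _
  have hbx : b ≤ x := by
    rw [hb]
    exact Nat.pow_log_le_self 2 (by have := hZ x hx; omega)
  have h3 := h x hx y hy hxy
  have h4 := Nat.div_mul_le_self (100 * (x - b)) b
  have h5 := Nat.lt_mul_div_succ (100 * (y - b)) hb0
  rw [← h2, mul_add, mul_one, mul_comm b] at h5
  omega

theorem cnt (n : ℕ) (Z : Finset ℕ) (hZ : ∀ z ∈ Z, 1 ≤ z ∧ z ≤ n)
    (h : ∀ x ∈ Z, ∀ y ∈ Z, x < y → x ≤ 100 * (y - x)) :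
    Z.card ≤ 100 * (Nat.log 2 n + 1) := by
  have h0 : ∀ z ∈ Z, 1 ≤ z := fun z hz => (hZ z hz).1
  have hcard : Z.card ≤ ((Finset.range (Nat.log 2 n + 1)) ×ˢ (Finset.range 100)).card := by
    refine Finset.card_le_card_of_injOn
      (fun z => (Nat.log 2 z, 100 * (z - 2 ^ Nat.log 2 z) / 2 ^ Nat.log 2 z)) ?_ ?_
    · intro z hz
      have hz' := Finset.mem_coe.1 hz
      obtain ⟨h1, h2⟩ := hZ z hz'
      have h3 := Nat.lt_pow_succ_log_self (b := 2) (by norm_num) z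
      have h4 : 0 < 2 ^ Nat.log 2 z := Nat.two_pow_pos _
      simp only [Finset.coe_product, Set.mem_prod, Finset.mem_coe, Finset.mem_range]
      refine ⟨Nat.lt_succ_iff.2 (Nat.log_mono_right h2), ?_⟩
      rw [Nat.div_lt_iff_lt_mul h4]
      rw [Nat.pow_succ] at h3
      omega
    · intro x hx y hy hxy
      have hx' := Finset.mem_coe.1 hx
      have hy' := Finset.mem_coe.1 hy
      simp only [Prod.mk.injEq] at hxy
      rcases lt_trichotomy x y with hlt | heq | hlt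
      · exact (cnt_aux h0 h hx' hy' hlt hxy.1 hxy.2).elim
      · exact heq
      · exact (cnt_aux h0 h hy' hx' hlt hxy.1.symm hxy.2.symm).elim
  rw [Finset.card_product, Finset.card_range, Finset.card_range] at hcard
  omega

end Pool.Agent.helper54.Sum
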