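import Pool.Agent.helper54.Sum.Geo
import Pool.Agent.helper54.Sum.Cnt
import Pool.Agent.helper54.Sum.CDefs

/-!
# The direct summands of a maximizer grow geometrically
-/

set_option autoImplicit false

namespace Pool.Agent.helper54.Sum

open Finset Equiv Pool.Agent.helper54.Schub Pool.Agent.helper54.Expl Pool.Agent.helper58.Far

lemma isCut_iff' {n : ℕ} (w : Perm (Fin n)) (k : ℕ) : IsCut w k ↔ k ≤ n ∧ PM k (iot w) := by
  constructor
  · rintro ⟨h1, h2⟩
    refine ⟨h1, pm_of_maps fun x hx => ?_⟩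
    have e := iot_apply w ⟨x, by omega⟩
    simp only at e
    rw [e]
    exact h2 _ hx
  · rintro ⟨h1, h2⟩
    refine ⟨h1, fun i hi => ?_⟩
    have e := iot_apply w i
    rw [← e]
    exact (h2 _).2 hi

/-- **Geometric growth.** -/
theorem geometric (n : ℕ) (S : Perm (Fin n) → MvPolynomial (Fin n) ℤ) (hS : IsSchubert n S)
    (w : Perm (Fin n)) (hw : ∀ x : Perm (Fin n), nu S x ≤ nu S w) :
    (∀ k e : ℕ, 0 < k → k < e → IsCut w k → IsCut w e → k ≤ 100 * (e - k)) ∧
      (∀ k : ℕ, k < n → IsCut w k → n ≤ 101 * (n - k)) ∧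
      summands w ≤ 100 * (Nat.log 2 n + 1) := by
  have hfa : FA n (iot w) := fa_iot w
  have hmax : ∀ w', FA n w' → val n w' ≤ val n (iot w) := by
    intro w' hw'
    have h1 := nu_eq_val hS (rst w' hw')
    have h2 := nu_eq_val hS w
    rw [iot_rst] at h1
    rw [← h1, ← h2]
    exact_mod_cast hw _
  have key : ∀ k e : ℕ, 0 < k → k < e → IsCut w k → IsCut w e → k ≤ 100 * (e - k) := by
    intro k e h0 hke hk he
    rw [isCut_iff'] at hk he
    exact geo n k e (iot w) hfa hmax h0 hke he.1 hk.2 he.2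
  refine ⟨key, ?_, ?_⟩
  · intro k hk hc
    rcases Nat.eq_zero_or_pos k with h0 | h0
    · omega
    · have h1 := key k n h0 hk hc ⟨le_refl n, fun i _ => (w i).isLt⟩
      omega
  apply cnt
  · intro z hz
    rw [mem_filter, mem_Icc] at hz
    exact hz.1
  · intro x hx y hy hxy
    rw [mem_filter, mem_Icc] at hx hy
    exact key x y (by omega) hxy hx.2 hy.2

end Pool.Agent.helper54.Sum
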