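import Pool.Agent.helper54.Sum.Exps
import Pool.Agent.helper58.Far.Conv
import Pool.Agent.helper58.Far.Num

/-!
# SUM-Big: a large direct summand

Proof.  (a) Strong induction on `k`: for `u` with `FA k u`, `k ≤ n`, and `y - x ≤ B` for all
neighbouring cut points `x < y ≤ k` of `u`: `val k u ≤ exp (k (B / 2) log (2 e n / B))`.  For `k = 0`
both sides are `1` (`val 0 u = 1`).  For `k ≥ 1` let `x < k` be the largest number with `PM x u`
(`PM 0` holds); `pm_split` at `x` and `val_split` (`Expl/Layers`) give `u = ρ * τ`,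
`val k u = val x ρ * gp x (k - x - 1) x τ`; the cut points `≤ x` of `ρ` are those of `u`; use
`gp_exp` and the induction hypothesis.
(b) Suppose all gaps of the maximizer `w` are `< n / 12`.  With `B = n / 12`:
`val n w ≤ exp (n ^ 2 / 24 * log (24 e))`, and `three_pow` (`helper58/Far/Conv`) gives
`(n (n - 1) / 2) log 3 ≤ 2 log n! + 3 log (val n w)`, a contradiction for `n ≥ 10 ^ 6`.
-/

set_option autoImplicit false

namespace Pool.Agent.helper54.Sum

open Finset Equiv Pool.Agent.helper54.Schub Pool.Agent.helper54.Expl Pool.Agent.helper58.Far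

/-- all gaps between neighbouring cut points `≤ k` are at most `B` -/
def BigGap (B : ℝ) (k : ℕ) (u : Perm ℕ) : Prop :=
  ∀ x y, x < y → y ≤ k → PM x u → PM y u → (∀ z, x < z → z < y → ¬ PM z u) →
    (y : ℝ) - x ≤ B

lemma big_pm_fa {k : ℕ} {u : Perm ℕ} (h : FA k u) : PM k u := by
  intro x
  constructor
  · intro hx
    by_contra hc
    rw [h x (by omega)] at hx
    exact hc hx
  · intro hx
    exact h.lt hx

lemma big_pm_zero (u : Perm ℕ) : PM 0 u := by
  intro x
  simp

lemma big_val_zero {u : Perm ℕ} (h : FA 0 u) : val 0 u = 1 := by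
  have h1 : u = 1 := by
    ext x
    rw [h x (Nat.zero_le x)]
    rfl
  rw [h1]
  unfold Pool.Agent.helper54.Schub.val
  rw [Nat.zero_sub, sch_zero, cf_one, del_one]

lemma big_pm_iff {x z : ℕ} {ρ u : Perm ℕ} (hzx : z ≤ x) (hρ : FA x ρ) (hu : PM x u)
    (h : ∀ t, t < x → ρ t = u t) : PM z ρ ↔ PM z u := by
  have key : ∀ t, ρ t < z ↔ u t < z := by
    intro t
    by_cases ht : t < x
    · rw [h t ht]
    · rw [hρ t (by omega)]
      have h1 : ¬ u t < x := fun h2 => ht ((hu t).1 h2)
      constructor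
      · intro h2; omega
      · intro h2; omega
  constructor
  · intro h1 t
    rw [← key t]
    exact h1 t
  · intro h1 t
    rw [key t]
    exact h1 t

theorem big_bound (n : ℕ) (B : ℝ) (hBn : B ≤ n) : ∀ (k : ℕ) (u : Perm ℕ), k ≤ n → FA k u →
    BigGap B k u → ((val k u : ℚ) : ℝ) ≤
      Real.exp ((k : ℝ) * (B / 2) * Real.log (2 * Real.exp 1 * n / B)) := by
  classical
  intro k
  induction k using Nat.strong_induction_on with
  | _ k ih =>
    intro u hk hu hgap
    rcases Nat.eq_zero_or_pos k with h0 | h0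
    · subst h0
      rw [big_val_zero hu]
      simp
    · obtain ⟨x, hx, hmax⟩ : ∃ x, (x < k ∧ PM x u) ∧ ∀ z, x < z → z < k → ¬ PM z u := by
        have hne : ((range k).filter (fun x => PM x u)).Nonempty :=
          ⟨0, by rw [mem_filter, mem_range]; exact ⟨h0, big_pm_zero u⟩⟩
        refine ⟨((range k).filter (fun x => PM x u)).max' hne, ?_, ?_⟩
        · have h1 := Finset.max'_mem _ hne
          rw [mem_filter, mem_range] at h1
          exact h1
        · intro z hz hzk hpm
          have h1 := Finset.le_max' ((range k).filter (fun x => PM x u)) z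
            (by rw [mem_filter, mem_range]; exact ⟨hzk, hpm⟩)
          exact absurd hz (not_lt.2 h1)
      obtain ⟨hxk, hpx⟩ := hx
      obtain ⟨ρ, τ, hρ, hτ, huv, hρu⟩ := pm_split hpx
      obtain ⟨l, hl⟩ : ∃ l, k = x + l + 1 := ⟨k - x - 1, by omega⟩
      have hτk : FA (x + l + 1) τ := by
        intro z hz
        have h1 : u z = z := hu z (by omega)
        rw [huv, Perm.mul_apply] at h1
        have h2 : x ≤ τ z := hτ.le (by omega)
        rw [hρ _ h2] at h1
        exact h1
      have hval : val k u = val x ρ * gp x l x τ := by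
        rw [hl, huv]
        exact val_split hρ hτ
      have hg : (l : ℝ) + 1 ≤ B := by
        have h1 := hgap x k hxk le_rfl hpx (big_pm_fa hu) hmax
        rw [hl] at h1
        push_cast at h1
        linarith
      have h1 : ((val x ρ : ℚ) : ℝ) ≤
          Real.exp ((x : ℝ) * (B / 2) * Real.log (2 * Real.exp 1 * n / B)) := by
        apply ih x hxk ρ (by omega) hρ
        intro a b hab hbx ha hb hz
        refine hgap a b hab (by omega) ((big_pm_iff (by omega) hρ hpx hρu).1 ha)
          ((big_pm_iff hbx hρ hpx hρu).1 hb) ?_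
        intro z hz1 hz2 hz3
        exact hz z hz1 hz2 ((big_pm_iff (by omega) hρ hpx hρu).2 hz3)
      have h2 := gp_exp n x l B hg hBn (by omega) τ hτ hτk
      have h3 : (0 : ℝ) ≤ ((gp x l x τ : ℚ) : ℝ) := by exact_mod_cast gp_nonneg x l x τ
      rw [hval]
      push_cast
      refine (mul_le_mul h1 h2 h3 (Real.exp_pos _).le).trans ?_
      rw [← Real.exp_add]
      apply le_of_eq
      congr 1
      rw [hl]
      push_cast
      ring

lemma big_log24 : 3 * Real.log 24 ≤ 14 * Real.log 2 := by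
  have h1 : Real.log ((24 : ℝ) ^ 3) ≤ Real.log ((2 : ℝ) ^ 14) :=
    Real.log_le_log (by positivity) (by norm_num)
  rw [Real.log_pow, Real.log_pow] at h1
  push_cast at h1
  exact h1

lemma big_num (n : ℕ) (hn : 10 ^ 6 ≤ n) (U : ℝ) (hU : 0 < U)
    (h1 : (3 : ℝ) ^ (n * (n - 1) / 2) ≤ (n.factorial : ℝ) ^ 2 * U ^ 3)
    (h2 : Real.log U ≤ (n : ℝ) ^ 2 / 24 * (1 + Real.log 24)) : False := by
  have hn' : (10 : ℝ) ^ 6 ≤ n := by exact_mod_cast hn
  have hN := half_cast n
  obtain ⟨N, hNN⟩ : ∃ N, N = n * (n - 1) / 2 := ⟨_, rfl⟩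
  rw [← hNN] at h1 hN
  have hf : (0 : ℝ) < n.factorial := by exact_mod_cast Nat.factorial_pos n
  have a1 : (N : ℝ) * Real.log 3 ≤ 2 * Real.log (n.factorial : ℝ) + 3 * Real.log U := by
    have := Real.log_le_log (by positivity) h1
    rw [Real.log_pow, Real.log_mul (by positivity) (by positivity), Real.log_pow,
      Real.log_pow] at this
    push_cast at this
    exact this
  have l0 : (0.6931 : ℝ) < Real.log 2 := by linarith [Real.log_two_gt_d9]
  have l1 : Real.log 2 < (0.6932 : ℝ) := by linarith [Real.log_two_lt_d9]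
  have b1 := log_three_ge
  have b2 := big_log24
  have b4 := log_fac_le n
  have b5 := log_n_le n hn
  have hN0 : (0 : ℝ) ≤ N := Nat.cast_nonneg N
  have hn0 : (0 : ℝ) ≤ n := Nat.cast_nonneg n
  generalize Real.log 3 = t3 at *
  generalize Real.log 24 = t24 at *
  generalize Real.log (n.factorial : ℝ) = tf at *
  generalize Real.log U = tU at *
  generalize Real.log (n : ℝ) = tn at *
  generalize Real.log 2 = t2 at *
  have c1 : (N : ℝ) * 1.095 ≤ N * t3 := mul_le_mul_of_nonneg_left (by linarith) hN0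
  have c4 : (n : ℝ) * tn ≤ n * (13 + (n : ℝ) / 10 ^ 6) :=
    mul_le_mul_of_nonneg_left b5 hn0
  have c5 : tU ≤ (n : ℝ) ^ 2 / 24 * 4.235 := by
    refine h2.trans ?_
    apply mul_le_mul_of_nonneg_left _ (by positivity)
    linarith
  have d1 : (N : ℝ) * 1.095 = ((n : ℝ) * (n - 1)) * 0.5475 := by
    rw [← hN]; ring
  rw [d1] at c1
  nlinarith

theorem big_summand (n : ℕ) (hn : 10 ^ 6 ≤ n) (w : Perm ℕ) (hw : FA n w)
    (hmax : ∀ w', FA n w' → val n w' ≤ val n w) :
    ∃ x y, x < y ∧ y ≤ n ∧ PM x w ∧ PM y w ∧ (∀ z, x < z → z < y → ¬ PM z w) ∧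
      n ≤ 12 * (y - x) := by
  by_contra hcon
  push Not at hcon
  have hn1 : 1 ≤ n := le_trans (by norm_num) hn
  have hn' : (0 : ℝ) < n := by exact_mod_cast hn1
  have hgap : BigGap ((n : ℝ) / 12) n w := by
    intro x y hxy hyn hpx hpy hz
    have h1 := hcon x y hxy hyn hpx hpy hz
    have h2 : 12 * (y - x) ≤ n := h1.le
    have h3 : (12 : ℝ) * ((y : ℝ) - x) ≤ n := by
      have h4 : ((12 * (y - x) : ℕ) : ℝ) ≤ (n : ℝ) := by exact_mod_cast h2
      rw [Nat.cast_mul, Nat.cast_sub hxy.le] at h4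
      exact h4
    linarith
  have h1 := big_bound n ((n : ℝ) / 12) (by linarith) n w le_rfl hw hgap
  have hpos : (0 : ℝ) < ((val n w : ℚ) : ℝ) := by
    have := lt_of_lt_of_le one_pos (one_le_val hn1 hw)
    exact_mod_cast this
  have e1 : Real.log (2 * Real.exp 1 * n / ((n : ℝ) / 12)) = 1 + Real.log 24 := by
    have : 2 * Real.exp 1 * n / ((n : ℝ) / 12) = Real.exp 1 * 24 := by
      field_simp
      ring
    rw [this, Real.log_mul (Real.exp_pos 1).ne' (by norm_num), Real.log_exp]
  rw [e1] at h1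
  have h2 : Real.log ((val n w : ℚ) : ℝ) ≤ (n : ℝ) ^ 2 / 24 * (1 + Real.log 24) := by
    have := Real.log_le_log hpos h1
    rw [Real.log_exp] at this
    refine this.trans (le_of_eq ?_)
    ring
  refine big_num n hn _ hpos ?_ h2
  have h3 := (Rat.cast_le (K := ℝ)).2 (three_pow (val n w) (fun x => hmax _ (fa_iot x)))
  push_cast at h3
  exact h3

end Pool.Agent.helper54.Sum
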