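import Pool.Agent.helper54.Sum.Mac

/-!
# SUM-Cmp: consequences of the Macdonald identity

Proof.  Induction on `invN (m + l + 1) τ`.  If it is `0` then `τ = 1` and `gp = 1` (`cf_wp_homog`
with `y = 0`).  Otherwise multiply by `invN > 0` and use `macd` on both sides: if
`τ⁻¹ (m + i + 1) < τ⁻¹ (m + i)` then `sj (m + i) * τ` has one inversion less, and
`(m + 1) (p + 1 + i) ≥ (p + 1) (m + 1 + i)` for `p ≤ m`.
-/

set_option autoImplicit false

namespace Pool.Agent.helper54.Sum

open Finset Equiv Pool.Agent.helper54.Schub Pool.Agent.helper54.Expl Pool.Agent.helper58.Far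

/-- inversions of a shorter element -/
theorem invN_sj_mul {n j : ℕ} (hj : j + 1 < n) {τ : Perm ℕ} (h : FA n τ)
    (hd : τ⁻¹ (j + 1) < τ⁻¹ j) : invN n τ = invN n (sj j * τ) + 1 := by
  have hlt : ∀ x, x < n → τ⁻¹ x < n := by
    intro x hx
    by_contra hc
    have h1 := h (τ⁻¹ x) (by omega)
    rw [ap_inv] at h1
    omega
  have h0 : (τ⁻¹ (j + 1), τ⁻¹ j) ∈ invS n τ := by
    rw [mem_invS]
    refine ⟨hlt _ hj, hlt _ (by omega), hd, ?_⟩
    simp only [ap_inv]
    omega
  have h1 : invS n (sj j * τ) = (invS n τ).erase (τ⁻¹ (j + 1), τ⁻¹ j) := by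
    ext ⟨a, b⟩
    rw [mem_erase, mem_invS, mem_invS, Ne, Prod.mk.injEq, Perm.mul_apply, Perm.mul_apply]
    have ea : a = τ⁻¹ (τ a) := (inv_ap τ a).symm
    have eb : b = τ⁻¹ (τ b) := (inv_ap τ b).symm
    constructor
    · rintro ⟨ha, hb, hab, hs⟩
      simp only at ha hb hab hs ⊢
      refine ⟨?_, ha, hb, hab, ?_⟩
      · rintro ⟨e1, e2⟩
        rw [e1, e2, ap_inv, ap_inv, sj_left, sj_right] at hs
        omega
      · by_contra hc
        by_cases hx : τ a = j ∧ τ b = j + 1
        · obtain ⟨e1, e2⟩ := hx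
          rw [e1] at ea
          rw [e2] at eb
          omega
        · have hne : τ a ≠ τ b := fun e => by have := τ.injective e; omega
          have := sj_mono (show τ a < τ b by omega) hx
          omega
    · rintro ⟨hne, ha, hb, hab, hs⟩
      simp only at ha hb hab hs hne ⊢
      refine ⟨ha, hb, hab, sj_mono hs ?_⟩
      rintro ⟨e1, e2⟩
      apply hne
      rw [← e2, ← e1, inv_ap, inv_ap]
      exact ⟨rfl, rfl⟩
  have h2 := card_erase_of_mem h0
  have h3 : 0 < (invS n τ).card := card_pos.2 ⟨_, h0⟩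
  unfold invN
  rw [h1]
  omega

lemma gp_eq_wp (m l p : ℕ) (τ : Perm ℕ) : gp m l p τ = cf τ (wp (lam ℚ) (1 : ℚ) (wA l m p)) := by
  rw [gp, wp_wA, AA, sch_eq_schx]

theorem gp_nonneg (m l p : ℕ) (τ : Perm ℕ) : 0 ≤ gp m l p τ := by
  rw [gp_eq_wp]
  exact cf_wp_nonneg zero_le_one _ _

theorem gp_zero_inv (m l p : ℕ) (τ : Perm ℕ) (h1 : FB m τ) (h2 : FA (m + l + 1) τ)
    (h : invN (m + l + 1) τ = 0) : gp m l p τ = 1 := by
  have hmem : ∀ j ∈ wA l m p, j + 1 < m + l + 1 := mem_wA l m (m + l + 1) (by omega) p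
  have e0 : wp (lam ℚ) (0 : ℚ) (wA l m p) = 1 := by
    rw [wp_wA, AA, dn_zero_var', schx_zero_var', one_pow, one_mul]
  have e1 := cf_wp_homog (m + l + 1) 0 (wA l m p) hmem τ
  rw [h, pow_zero, one_mul, ← gp_eq_wp, e0, cf_one] at e1
  rw [← e1]
  have ht : τ = 1 := by
    apply eq_one_of_no_inv
    intro a b hab hs
    by_cases hb : b < m + l + 1
    · have : (a, b) ∈ invS (m + l + 1) τ := mem_invS.2 ⟨by simp only; omega, hb, hab, hs⟩
      unfold invN at h
      rw [card_eq_zero] at h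
      rw [h] at this
      simp at this
    · rw [h2 b (by omega)] at hs
      by_cases ha : m + l + 1 ≤ a
      · rw [h2 a ha] at hs; omega
      · have h3 := h2 (τ a) (by omega)
        have := τ.injective h3
        omega
  rw [ht, del_one]

lemma FB_sj {m j : ℕ} (hj : m ≤ j) {τ : Perm ℕ} (h : FB m τ) : FB m (sj j * τ) := by
  intro x hx
  rw [Perm.mul_apply, h x hx, sj_of_ne (by omega) (by omega)]

lemma FA_sj {e j : ℕ} (hj : j + 1 < e) {τ : Perm ℕ} (h : FA e τ) : FA e (sj j * τ) := by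
  intro x hx
  rw [Perm.mul_apply, h x hx, sj_of_ne (by omega) (by omega)]

/-- fewer rows -/
theorem gp_ratio (m l p : ℕ) (hp : p ≤ m) : ∀ (k : ℕ) (τ : Perm ℕ), FB m τ →
    FA (m + l + 1) τ → invN (m + l + 1) τ = k →
      ((p : ℚ) + 1) ^ k * gp m l m τ ≤ ((m : ℚ) + 1) ^ k * gp m l p τ
  | 0, τ, h1, h2, h => by
    rw [gp_zero_inv m l m τ h1 h2 h, gp_zero_inv m l p τ h1 h2 h, pow_zero, pow_zero]
  | k + 1, τ, h1, h2, h => by
    have hk : (0 : ℚ) < (k : ℚ) + 1 := by positivity
    have m1 := macd m l m le_rfl τ h1 h2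
    have m2 := macd m l p hp τ h1 h2
    rw [h] at m1 m2
    push_cast at m1 m2
    refine le_of_mul_le_mul_left ?_ hk
    calc ((k : ℚ) + 1) * (((p : ℚ) + 1) ^ (k + 1) * gp m l m τ)
        = ((p : ℚ) + 1) ^ (k + 1) * (((k : ℚ) + 1) * gp m l m τ) := by ring
      _ ≤ ((m : ℚ) + 1) ^ (k + 1) * (((k : ℚ) + 1) * gp m l p τ) := by
        rw [m1, m2, mul_sum, mul_sum]
        apply sum_le_sum
        intro i hi
        rw [mem_range] at hi
        split_ifs with hd
        · have e := invN_sj_mul (show m + i + 1 < m + l + 1 by omega) h2 hd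
          have ih := gp_ratio m l p hp k (sj (m + i) * τ) (FB_sj (by omega) h1)
            (FA_sj (by omega) h2) (by omega)
          have g0 := gp_nonneg m l p (sj (m + i) * τ)
          have hpm : ((p : ℚ) + 1) * ((m : ℚ) + 1 + i) ≤ ((m : ℚ) + 1) * ((p : ℚ) + 1 + i) := by
            have : (p : ℚ) ≤ m := by exact_mod_cast hp
            have hi0 : (0 : ℚ) ≤ i := by positivity
            nlinarith
          calc ((p : ℚ) + 1) ^ (k + 1) * (((m : ℚ) + 1 + i) * gp m l m (sj (m + i) * τ))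
              = ((p : ℚ) + 1) * ((m : ℚ) + 1 + i) *
                (((p : ℚ) + 1) ^ k * gp m l m (sj (m + i) * τ)) := by ring
            _ ≤ ((p : ℚ) + 1) * ((m : ℚ) + 1 + i) *
                (((m : ℚ) + 1) ^ k * gp m l p (sj (m + i) * τ)) :=
              mul_le_mul_of_nonneg_left ih (by positivity)
            _ ≤ ((m : ℚ) + 1) * ((p : ℚ) + 1 + i) *
                (((m : ℚ) + 1) ^ k * gp m l p (sj (m + i) * τ)) :=
              mul_le_mul_of_nonneg_right hpm (by positivity)
            _ = _ := by ring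
        · rw [mul_zero, mul_zero]
      _ = ((k : ℚ) + 1) * (((m : ℚ) + 1) ^ (k + 1) * gp m l p τ) := by ring

/-- upper bound -/
theorem gp_le (m l : ℕ) : ∀ (k : ℕ) (τ : Perm ℕ), FB m τ →
    FA (m + l + 1) τ → invN (m + l + 1) τ = k →
      (k.factorial : ℚ) * gp m l m τ ≤ ((l : ℚ) * (m + l + 1)) ^ k
  | 0, τ, h1, h2, h => by
    rw [gp_zero_inv m l m τ h1 h2 h, pow_zero]
    simp
  | k + 1, τ, h1, h2, h => by
    have m1 := macd m l m le_rfl τ h1 h2
    rw [h] at m1
    have hX : (0 : ℚ) ≤ ((l : ℚ) * (m + l + 1)) ^ k := by positivity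
    calc (((k + 1).factorial : ℕ) : ℚ) * gp m l m τ
        = (k.factorial : ℚ) * (((k + 1 : ℕ) : ℚ) * gp m l m τ) := by
          rw [Nat.factorial_succ]; push_cast; ring
      _ ≤ ∑ _i ∈ range l, ((m : ℚ) + l + 1) * ((l : ℚ) * (m + l + 1)) ^ k := by
        rw [m1, mul_sum]
        apply sum_le_sum
        intro i hi
        rw [mem_range] at hi
        have hil : (i : ℚ) ≤ l := by exact_mod_cast hi.le
        split_ifs with hd
        · have e := invN_sj_mul (show m + i + 1 < m + l + 1 by omega) h2 hd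
          have ih := gp_le m l k (sj (m + i) * τ) (FB_sj (by omega) h1)
            (FA_sj (by omega) h2) (by omega)
          calc (k.factorial : ℚ) * (((m : ℚ) + 1 + i) * gp m l m (sj (m + i) * τ))
              = ((m : ℚ) + 1 + i) * ((k.factorial : ℚ) * gp m l m (sj (m + i) * τ)) := by ring
            _ ≤ ((m : ℚ) + 1 + i) * ((l : ℚ) * (m + l + 1)) ^ k :=
              mul_le_mul_of_nonneg_left ih (by positivity)
            _ ≤ _ := mul_le_mul_of_nonneg_right (by linarith) hX
        · rw [mul_zero]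
          exact mul_nonneg (by positivity) hX
      _ = ((l : ℚ) * (m + l + 1)) ^ (k + 1) := by
        rw [sum_const, card_range, nsmul_eq_mul, pow_succ]; ring

end Pool.Agent.helper54.Sum
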