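import Pool.Agent.helper54.Sum.GDefs
import Pool.Agent.helper54.Sum.Cmp

/-!
# SUM-CmpG: consequences of the Macdonald identity (blocks at `0`, any number of rows)

Proof.  All by induction on `k = invN (l + 1) τ` from `macd'` with `m = 0`.  For `k = 0` one has
`gp 0 l p τ = 1` (`τ = 1`; or `cf_wp_homog` with `y = 0`).  For `k ≥ 1` multiply by `k` and use
`macd'`; if `τ⁻¹ (i + 1) < τ⁻¹ i` then `sj i * τ` is `FA (l + 1)` and has `k - 1` inversions (left
version of `invN_mul_sj`, `helper58/Far/Inv`; or `invN` of the inverse).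
`g_up`: `(p' + 1 + i) (p + l) ≥ (p' + l) (p + 1 + i)` for `i < l`, `p ≤ p'` (difference
`(p' - p) (l - 1 - i)`).
`g_le`: `∑_{i < l} (p + 1 + i) ≤ l (p + l + 1)`.
`g_one_le`: `gp 0 l p τ ≥ gp 0 l 0 τ = val (l + 1) τ ≥ 1` (`one_le_val`; `ele_one_dn` in `Expl/Ex1`), or
by the same induction: some `i < l` has `τ⁻¹ (i + 1) < τ⁻¹ i` when `k ≥ 1`, and all values are `≥ 0`
(then use `g_up` with `p = 0`).
-/

set_option autoImplicit false

namespace Pool.Agent.helper54.Sum

open Finset Equiv Pool.Agent.helper54.Schub Pool.Agent.helper54.Expl Pool.Agent.helper58.Far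

lemma macd0 (l p : ℕ) (τ : Perm ℕ) :
    (invN (l + 1) τ : ℚ) * gp 0 l p τ =
      ∑ i ∈ range l, if τ⁻¹ (i + 1) < τ⁻¹ i then
        ((p : ℚ) + 1 + i) * gp 0 l p (sj i * τ) else 0 := by
  have h := macd' 0 l p τ
  simp only [zero_add] at h
  exact h

lemma g_zero_inv (l p : ℕ) (τ : Perm ℕ) (h2 : FA (l + 1) τ) (h : invN (l + 1) τ = 0) :
    gp 0 l p τ = 1 := by
  apply gp_zero_inv 0 l p τ (fun x hx => absurd hx (Nat.not_lt_zero x))
  · rw [zero_add]; exact h2
  · rw [zero_add]; exact h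

/-- more rows -/
theorem g_up (l p p' : ℕ) (hp : p ≤ p') : ∀ (k : ℕ) (τ : Perm ℕ), FA (l + 1) τ →
    invN (l + 1) τ = k →
      ((p' : ℚ) + l) ^ k * gp 0 l p τ ≤ ((p : ℚ) + l) ^ k * gp 0 l p' τ
  | 0, τ, h2, h => by
    rw [g_zero_inv l p τ h2 h, g_zero_inv l p' τ h2 h, pow_zero, pow_zero]
  | k + 1, τ, h2, h => by
    have hk : (0 : ℚ) < (k : ℚ) + 1 := by positivity
    have m1 := macd0 l p τ
    have m2 := macd0 l p' τ
    rw [h] at m1 m2
    push_cast at m1 m2
    refine le_of_mul_le_mul_left ?_ hk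
    calc ((k : ℚ) + 1) * (((p' : ℚ) + l) ^ (k + 1) * gp 0 l p τ)
        = ((p' : ℚ) + l) ^ (k + 1) * (((k : ℚ) + 1) * gp 0 l p τ) := by ring
      _ ≤ ((p : ℚ) + l) ^ (k + 1) * (((k : ℚ) + 1) * gp 0 l p' τ) := by
        rw [m1, m2, mul_sum, mul_sum]
        apply sum_le_sum
        intro i hi
        rw [mem_range] at hi
        split_ifs with hd
        · have e := invN_sj_mul (show i + 1 < l + 1 by omega) h2 hd
          have ih := g_up l p p' hp k (sj i * τ) (FA_sj (by omega) h2) (by omega)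
          have g0 := gp_nonneg 0 l p' (sj i * τ)
          have hpm : ((p' : ℚ) + l) * ((p : ℚ) + 1 + i) ≤ ((p : ℚ) + l) * ((p' : ℚ) + 1 + i) := by
            have h3 : (p : ℚ) ≤ p' := by exact_mod_cast hp
            have h4 : (i : ℚ) + 1 ≤ l := by exact_mod_cast hi
            nlinarith [mul_nonneg (sub_nonneg.2 h3) (sub_nonneg.2 h4)]
          calc ((p' : ℚ) + l) ^ (k + 1) * (((p : ℚ) + 1 + i) * gp 0 l p (sj i * τ))
              = ((p' : ℚ) + l) * ((p : ℚ) + 1 + i) *
                (((p' : ℚ) + l) ^ k * gp 0 l p (sj i * τ)) := by ring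
            _ ≤ ((p' : ℚ) + l) * ((p : ℚ) + 1 + i) *
                (((p : ℚ) + l) ^ k * gp 0 l p' (sj i * τ)) :=
              mul_le_mul_of_nonneg_left ih (by positivity)
            _ ≤ ((p : ℚ) + l) * ((p' : ℚ) + 1 + i) *
                (((p : ℚ) + l) ^ k * gp 0 l p' (sj i * τ)) :=
              mul_le_mul_of_nonneg_right hpm (by positivity)
            _ = _ := by ring
        · rw [mul_zero, mul_zero]
      _ = ((k : ℚ) + 1) * (((p : ℚ) + l) ^ (k + 1) * gp 0 l p' τ) := by ring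

/-- upper bound -/
theorem g_le (l p : ℕ) : ∀ (k : ℕ) (τ : Perm ℕ), FA (l + 1) τ → invN (l + 1) τ = k →
      (k.factorial : ℚ) * gp 0 l p τ ≤ ((l : ℚ) * (p + l + 1)) ^ k
  | 0, τ, h2, h => by
    rw [g_zero_inv l p τ h2 h, pow_zero]
    simp
  | k + 1, τ, h2, h => by
    have m1 := macd0 l p τ
    rw [h] at m1
    have hX : (0 : ℚ) ≤ ((l : ℚ) * (p + l + 1)) ^ k := by positivity
    calc (((k + 1).factorial : ℕ) : ℚ) * gp 0 l p τ
        = (k.factorial : ℚ) * (((k + 1 : ℕ) : ℚ) * gp 0 l p τ) := by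
          rw [Nat.factorial_succ]; push_cast; ring
      _ ≤ ∑ _i ∈ range l, ((p : ℚ) + l + 1) * ((l : ℚ) * (p + l + 1)) ^ k := by
        rw [m1, mul_sum]
        apply sum_le_sum
        intro i hi
        rw [mem_range] at hi
        have hil : (i : ℚ) ≤ l := by exact_mod_cast hi.le
        split_ifs with hd
        · have e := invN_sj_mul (show i + 1 < l + 1 by omega) h2 hd
          have ih := g_le l p k (sj i * τ) (FA_sj (by omega) h2) (by omega)
          calc (k.factorial : ℚ) * (((p : ℚ) + 1 + i) * gp 0 l p (sj i * τ))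
              = ((p : ℚ) + 1 + i) * ((k.factorial : ℚ) * gp 0 l p (sj i * τ)) := by ring
            _ ≤ ((p : ℚ) + 1 + i) * ((l : ℚ) * (p + l + 1)) ^ k :=
              mul_le_mul_of_nonneg_left ih (by positivity)
            _ ≤ _ := mul_le_mul_of_nonneg_right (by linarith) hX
        · rw [mul_zero]
          exact mul_nonneg (by positivity) hX
      _ = ((l : ℚ) * (p + l + 1)) ^ (k + 1) := by
        rw [sum_const, card_range, nsmul_eq_mul, pow_succ]; ring

theorem g_one_le (l p : ℕ) (τ : Perm ℕ) (h : FA (l + 1) τ) : 1 ≤ gp 0 l p τ := by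
  have h1 : 1 ≤ gp 0 l 0 τ := by
    rw [← val_eq_gp]
    exact one_le_val (by omega) h
  rcases Nat.eq_zero_or_pos (p + l) with h0 | h0
  · have hp : p = 0 := by omega
    rw [hp]; exact h1
  · have h2 := g_up l 0 p (Nat.zero_le p) (invN (l + 1) τ) τ h rfl
    have hq : (0 : ℚ) < ((p : ℚ) + l) ^ invN (l + 1) τ := by
      have : (0 : ℚ) < (p : ℚ) + l := by exact_mod_cast h0
      positivity
    have g0 := gp_nonneg 0 l p τ
    have h3 : (((0 : ℕ) : ℚ) + l) ^ invN (l + 1) τ ≤ ((p : ℚ) + l) ^ invN (l + 1) τ := by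
      apply pow_le_pow_left₀ (by positivity)
      have : (0 : ℚ) ≤ p := by positivity
      push_cast
      linarith
    have h4 := h2.trans (mul_le_mul_of_nonneg_right h3 g0)
    exact h1.trans (le_of_mul_le_mul_left h4 hq)

end Pool.Agent.helper54.Sum
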