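import Mathlib

/-!
# SUM-Comb: sets of natural numbers without balanced triples

Proof.  Let `I = Nat.clog 2 (Nat.log 2 n + 1)`; then `2 ^ I ≤ 2 (Nat.log 2 n + 1)` and
`n < 2 ^ (Nat.log 2 n + 1) ≤ 2 ^ (2 ^ I)`.
Claim `Q i` (`i ≤ I`, downward induction): for `x ≤ y` in `Z` with
`4 (y - x) 2 ^ (2 ^ i) ≤ x` one has `#(Z ∩ [x, y]) ≤ 2 ^ (I - i)`.  For `i = I`: if `x < y` then
`n < 4 * 2 ^ (2 ^ I) ≤ x ≤ n`, so `x = y`.  Step: `B = y - x`, `x < y`, every `z` in `Z` strictly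
between satisfies `x min (z - x) (y - z) < 4 ((z - x)² + (y - z)²) ≤ 4 B²`.  If `2 (z - x) ≤ B`
then `x (z - x) ≤ 4 B²` and `4 (z - x) 2 ^ (2 ^ (i + 1)) x ≤ (4 B 2 ^ (2 ^ i))² ≤ x²`, so
`4 (z - x) 2 ^ (2 ^ (i + 1)) ≤ x`; apply `Q (i + 1)` to `x` and the largest such `z` (or `z = x`).
Otherwise the same for `y - z`: apply `Q (i + 1)` to the smallest such `z` and `y`.
Windows: `z = 2 ^ a + r`, `r < 2 ^ a` (`a = Nat.log 2 z ≤ Nat.log 2 n`), index `(a, 8 r / 2 ^ a)`:
at most `8 (Nat.log 2 n + 1)` windows; two elements `x ≤ y` of one window satisfy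
`8 (y - x) ≤ 2 ^ a ≤ x`, so `Q 0` bounds the number of elements of `Z` in a window by `2 ^ I`.
Total `≤ 8 (L + 1) * 2 (L + 1)`.
-/

set_option autoImplicit false

namespace Pool.Agent.helper54.Sum

private theorem comb_arith (x B w T : ℕ) (hx : 0 < x) (h1 : x * w ≤ 4 * B ^ 2)
    (h2 : 4 * B * T ≤ x) : 4 * w * (T * T) ≤ x := by
  have h3 : (4 * B * T) * (4 * B * T) ≤ x * x := Nat.mul_le_mul h2 h2
  have h4 : x * (4 * w * (T * T)) ≤ x * x := by
    calc x * (4 * w * (T * T)) = 4 * (T * T) * (x * w) := by ring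
      _ ≤ 4 * (T * T) * (4 * B ^ 2) := Nat.mul_le_mul_left _ h1
      _ = (4 * B * T) * (4 * B * T) := by ring
      _ ≤ x * x := h3
  exact Nat.le_of_mul_le_mul_left h4 hx

private theorem comb_pow (i : ℕ) : 2 ^ (2 ^ (i + 1)) = 2 ^ (2 ^ i) * 2 ^ (2 ^ i) := by
  rw [← pow_add]
  congr 1
  ring

private theorem comb_single (Z : Finset ℕ) (x : ℕ) :
    (Z.filter (fun z => x ≤ z ∧ z ≤ x)).card ≤ 1 := by
  rw [Finset.card_le_one]
  intro a ha b hb
  rw [Finset.mem_filter] at ha hb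
  omega

private theorem comb_left (x y z : ℕ) (hx : 0 < x) (hxz : x < z) (hzy : z < y)
    (hh : 2 * (z - x) ≤ y - x)
    (h : x * min (z - x) (y - z) < 4 * ((z - x) ^ 2 + (y - z) ^ 2)) (T : ℕ)
    (hT : 4 * (y - x) * T ≤ x) : 4 * (z - x) * (T * T) ≤ x := by
  obtain ⟨p, rfl⟩ := Nat.exists_eq_add_of_lt hxz
  obtain ⟨q, rfl⟩ := Nat.exists_eq_add_of_lt hzy
  have e1 : x + p + 1 - x = p + 1 := by omega
  have e2 : x + p + 1 + q + 1 - (x + p + 1) = q + 1 := by omega
  have e3 : x + p + 1 + q + 1 - x = p + q + 2 := by omega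
  rw [e1, e3] at hh
  rw [e1, e2] at h
  rw [e3] at hT
  rw [e1]
  have hm : min (p + 1) (q + 1) = p + 1 := by
    apply min_eq_left
    omega
  rw [hm] at h
  refine comb_arith x (p + q + 2) (p + 1) T hx ?_ hT
  nlinarith [Nat.zero_le (p * q), Nat.zero_le p, Nat.zero_le q]

private theorem comb_right (x y z : ℕ) (hx : 0 < x) (hxz : x < z) (hzy : z < y)
    (hh : y - x < 2 * (z - x))
    (h : x * min (z - x) (y - z) < 4 * ((z - x) ^ 2 + (y - z) ^ 2)) (T : ℕ)
    (hT : 4 * (y - x) * T ≤ x) : 4 * (y - z) * (T * T) ≤ z := by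
  obtain ⟨p, rfl⟩ := Nat.exists_eq_add_of_lt hxz
  obtain ⟨q, rfl⟩ := Nat.exists_eq_add_of_lt hzy
  have e1 : x + p + 1 - x = p + 1 := by omega
  have e2 : x + p + 1 + q + 1 - (x + p + 1) = q + 1 := by omega
  have e3 : x + p + 1 + q + 1 - x = p + q + 2 := by omega
  rw [e1, e3] at hh
  rw [e1, e2] at h
  rw [e3] at hT
  rw [e2]
  have hm : min (p + 1) (q + 1) = q + 1 := by
    apply min_eq_right
    omega
  rw [hm] at h
  have h5 : 4 * (q + 1) * (T * T) ≤ x := by
    refine comb_arith x (p + q + 2) (q + 1) T hx ?_ hT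
    nlinarith [Nat.zero_le (p * q), Nat.zero_le p, Nat.zero_le q]
  omega

private theorem comb_Q (n : ℕ) (Z : Finset ℕ) (hZ : ∀ z ∈ Z, 1 ≤ z ∧ z ≤ n)
    (h : ∀ x ∈ Z, ∀ z ∈ Z, ∀ y ∈ Z, x < z → z < y →
      x * min (z - x) (y - z) < 4 * ((z - x) ^ 2 + (y - z) ^ 2)) (I : ℕ)
    (hI : n < 2 ^ (2 ^ I)) (k : ℕ) :
    ∀ i : ℕ, i + k = I → ∀ x ∈ Z, ∀ y ∈ Z, x ≤ y → 4 * (y - x) * 2 ^ (2 ^ i) ≤ x →
      (Z.filter (fun z => x ≤ z ∧ z ≤ y)).card ≤ 2 ^ k := by
  induction k with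
  | zero =>
    intro i hi x hx y hy hxy hT
    have hiI : i = I := by omega
    subst hiI
    rcases Nat.lt_or_ge x y with hlt | hge
    · exfalso
      have h1 : 1 ≤ y - x := by omega
      have h2 : 4 * 1 * 2 ^ (2 ^ i) ≤ 4 * (y - x) * 2 ^ (2 ^ i) := by
        gcongr
      have h3 := (hZ x hx).2
      omega
    · have hxy2 : y = x := le_antisymm hge hxy
      subst hxy2
      rw [pow_zero]
      exact comb_single Z y
  | succ k ih =>
    intro i hi x hx y hy hxy hT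
    have hxpos : 0 < x := (hZ x hx).1
    rcases Nat.lt_or_ge x y with hlt | hge
    · set S1 := Z.filter (fun z => (x ≤ z ∧ z ≤ y) ∧ 2 * (z - x) ≤ y - x) with hS1
      set S2 := Z.filter (fun z => (x ≤ z ∧ z ≤ y) ∧ ¬ (2 * (z - x) ≤ y - x)) with hS2
      have hx1 : x ∈ S1 := by
        rw [hS1, Finset.mem_filter]
        refine ⟨hx, ⟨le_rfl, hxy⟩, ?_⟩
        omega
      have hy2 : y ∈ S2 := by
        rw [hS2, Finset.mem_filter]
        refine ⟨hy, ⟨hxy, le_rfl⟩, ?_⟩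
        omega
      have hn1 : S1.Nonempty := ⟨x, hx1⟩
      have hn2 : S2.Nonempty := ⟨y, hy2⟩
      have hmem1 := Finset.max'_mem S1 hn1
      have hmem2 := Finset.min'_mem S2 hn2
      set z1 := S1.max' hn1 with hz1
      set z2 := S2.min' hn2 with hz2
      have hm1 := hmem1
      rw [hS1, Finset.mem_filter] at hm1
      have hm2 := hmem2
      rw [hS2, Finset.mem_filter] at hm2
      obtain ⟨hz1Z, ⟨hz1a, hz1b⟩, hz1c⟩ := hm1
      obtain ⟨hz2Z, ⟨hz2a, hz2b⟩, hz2c⟩ := hm2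
      have hc1 : S1.card ≤ 2 ^ k := by
        have hsub : S1 ⊆ Z.filter (fun z => x ≤ z ∧ z ≤ z1) := by
          intro z hz
          have hle := Finset.le_max' S1 z hz
          rw [hS1, Finset.mem_filter] at hz
          rw [Finset.mem_filter]
          exact ⟨hz.1, hz.2.1.1, hle⟩
        refine le_trans (Finset.card_le_card hsub) (ih (i + 1) (by omega) x hx z1 hz1Z hz1a ?_)
        rw [comb_pow]
        rcases Nat.lt_or_ge x z1 with hlt1 | hge1
        · exact comb_left x y z1 hxpos hlt1 (by omega) hz1c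
            (h x hx z1 hz1Z y hy hlt1 (by omega)) _ hT
        · have e : z1 - x = 0 := by omega
          rw [e]
          simp
      have hc2 : S2.card ≤ 2 ^ k := by
        have hsub : S2 ⊆ Z.filter (fun z => z2 ≤ z ∧ z ≤ y) := by
          intro z hz
          have hle := Finset.min'_le S2 z hz
          rw [hS2, Finset.mem_filter] at hz
          rw [Finset.mem_filter]
          exact ⟨hz.1, hle, hz.2.1.2⟩
        refine le_trans (Finset.card_le_card hsub) (ih (i + 1) (by omega) z2 hz2Z y hy hz2b ?_)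
        rw [comb_pow]
        rcases Nat.lt_or_ge z2 y with hlt1 | hge1
        · have hxz : x < z2 := by omega
          exact comb_right x y z2 hxpos hxz hlt1 (by omega)
            (h x hx z2 hz2Z y hy hxz hlt1) _ hT
        · have e : y - z2 = 0 := by omega
          rw [e]
          simp
      have hsplit : (Z.filter (fun z => x ≤ z ∧ z ≤ y)).card = S1.card + S2.card := by
        have e := Finset.card_filter_add_card_filter_not
          (s := Z.filter (fun z => x ≤ z ∧ z ≤ y)) (fun z => 2 * (z - x) ≤ y - x)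
        rw [Finset.filter_filter, Finset.filter_filter] at e
        exact e.symm
      rw [hsplit, pow_succ]
      omega
    · have hxy2 : y = x := le_antisymm hge hxy
      subst hxy2
      exact le_trans (comb_single Z y) Nat.one_le_two_pow

private theorem comb_window (a j x y : ℕ) (hx : 2 ^ a ≤ x) (hxy : x ≤ y)
    (h1 : 8 * (x - 2 ^ a) / 2 ^ a = j) (h2 : 8 * (y - 2 ^ a) / 2 ^ a = j) :
    8 * (y - x) ≤ x := by
  have hpos : 0 < 2 ^ a := Nat.two_pow_pos a
  have h3 : j * 2 ^ a ≤ 8 * (x - 2 ^ a) := by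
    rw [← h1]
    exact Nat.div_mul_le_self _ _
  have h4 : 8 * (y - 2 ^ a) < (j + 1) * 2 ^ a := by
    rw [← h2, mul_comm _ (2 ^ a)]
    exact Nat.lt_mul_div_succ _ hpos
  rw [add_mul, one_mul] at h4
  omega

private theorem comb_clog (L : ℕ) : 2 ^ (Nat.clog 2 (L + 1)) ≤ 2 * (L + 1) := by
  rcases Nat.eq_zero_or_pos L with h0 | hpos
  · subst h0
    simp
  · have h1 : 1 < L + 1 := by omega
    have h2 := Nat.pow_pred_clog_lt_self (b := 2) (by norm_num) h1
    have h3 : 0 < Nat.clog 2 (L + 1) := Nat.clog_pos (by norm_num) (by omega)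
    obtain ⟨m, hm⟩ := Nat.exists_eq_succ_of_ne_zero h3.ne'
    rw [hm] at h2 ⊢
    rw [Nat.succ_eq_add_one, pow_succ]
    simp only [Nat.succ_eq_add_one, Nat.pred_eq_sub_one, Nat.add_sub_cancel] at h2
    omega

theorem comb (n : ℕ) (Z : Finset ℕ) (hZ : ∀ z ∈ Z, 1 ≤ z ∧ z ≤ n)
    (h : ∀ x ∈ Z, ∀ z ∈ Z, ∀ y ∈ Z, x < z → z < y →
      x * min (z - x) (y - z) < 4 * ((z - x) ^ 2 + (y - z) ^ 2)) :
    Z.card ≤ 16 * (Nat.log 2 n + 1) ^ 2 := by
  set L := Nat.log 2 n with hL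
  have hI : n < 2 ^ (2 ^ (Nat.clog 2 (L + 1))) := by
    have h1 : n < 2 ^ (L + 1) := by
      rw [hL]
      exact Nat.lt_pow_succ_log_self (by norm_num) n
    have h2 : L + 1 ≤ 2 ^ (Nat.clog 2 (L + 1)) := Nat.le_pow_clog (by norm_num) _
    exact lt_of_lt_of_le h1 (Nat.pow_le_pow_right (by norm_num) h2)
  have hQ := comb_Q n Z hZ h (Nat.clog 2 (L + 1)) hI (Nat.clog 2 (L + 1)) 0 (by omega)
  have hmaps : ∀ z ∈ Z, (Nat.log 2 z, 8 * (z - 2 ^ (Nat.log 2 z)) / 2 ^ (Nat.log 2 z)) ∈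
      (Finset.range (L + 1)) ×ˢ (Finset.range 8) := by
    intro z hz
    rw [Finset.mem_product, Finset.mem_range, Finset.mem_range]
    constructor
    · have := Nat.log_mono_right (b := 2) (hZ z hz).2
      show Nat.log 2 z < L + 1
      omega
    · show 8 * (z - 2 ^ (Nat.log 2 z)) / 2 ^ (Nat.log 2 z) < 8
      have h1 : z < 2 ^ (Nat.log 2 z + 1) := Nat.lt_pow_succ_log_self (by norm_num) z
      rw [pow_succ] at h1
      apply Nat.div_lt_of_lt_mul
      have hpos : 0 < 2 ^ (Nat.log 2 z) := Nat.two_pow_pos _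
      omega
  have hfib : ∀ p ∈ (Finset.range (L + 1)) ×ˢ (Finset.range 8),
      (Z.filter (fun z => (Nat.log 2 z, 8 * (z - 2 ^ (Nat.log 2 z)) / 2 ^ (Nat.log 2 z)) = p)).card
        ≤ 2 ^ (Nat.clog 2 (L + 1)) := by
    rintro ⟨a, j⟩ -
    set F := Z.filter
      (fun z => (Nat.log 2 z, 8 * (z - 2 ^ (Nat.log 2 z)) / 2 ^ (Nat.log 2 z)) = (a, j)) with hF
    rcases F.eq_empty_or_nonempty with he | hne
    · rw [he]
      simp
    · have hmem1 := Finset.min'_mem F hne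
      have hmem2 := Finset.max'_mem F hne
      have hle := Finset.min'_le F (F.max' hne) hmem2
      have hsub : F ⊆ Z.filter (fun z => F.min' hne ≤ z ∧ z ≤ F.max' hne) := by
        intro z hz
        rw [Finset.mem_filter]
        refine ⟨?_, Finset.min'_le F z hz, Finset.le_max' F z hz⟩
        rw [hF, Finset.mem_filter] at hz
        exact hz.1
      have key : ∀ z ∈ F, z ∈ Z ∧ 2 ^ a ≤ z ∧ 8 * (z - 2 ^ a) / 2 ^ a = j := by
        intro z hz
        rw [hF, Finset.mem_filter] at hz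
        obtain ⟨hzZ, he⟩ := hz
        have e1 : Nat.log 2 z = a := congrArg Prod.fst he
        have e2 : 8 * (z - 2 ^ (Nat.log 2 z)) / 2 ^ (Nat.log 2 z) = j := congrArg Prod.snd he
        rw [e1] at e2
        refine ⟨hzZ, ?_, e2⟩
        rw [← e1]
        exact Nat.pow_log_le_self 2 (by have := (hZ z hzZ).1; omega)
      obtain ⟨k1, k2, k3⟩ := key _ hmem1
      obtain ⟨l1, l2, l3⟩ := key _ hmem2
      refine le_trans (Finset.card_le_card hsub) (hQ _ k1 _ l1 hle ?_)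
      have hw := comb_window a j _ _ k2 hle k3 l3
      have e : 4 * (F.max' hne - F.min' hne) * 2 ^ (2 ^ 0) = 8 * (F.max' hne - F.min' hne) := by
        norm_num
        ring
      rw [e]
      exact hw
  have hcard := Finset.card_le_mul_card_image_of_maps_to hmaps _ hfib
  rw [Finset.card_product, Finset.card_range, Finset.card_range] at hcard
  have hcl := comb_clog L
  calc Z.card ≤ 2 ^ (Nat.clog 2 (L + 1)) * ((L + 1) * 8) := hcard
    _ ≤ 2 * (L + 1) * ((L + 1) * 8) := Nat.mul_le_mul_right _ hcl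
    _ = 16 * (L + 1) ^ 2 := by ring

end Pool.Agent.helper54.Sum
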