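import Pool.Agent.helper54.Sum.SDefs

/-!
# SUM-InvB: number of inversions of a direct sum of two blocks

Proof.  `τ` maps each of `[0, m)`, `[m, k)`, `[k, e)` to itself and fixes `[0, m)`; an inversion
`(i, j)`, `i < j`, `τ j < τ i` lies in `[m, k) × [m, k)` or in `[k, e) × [k, e)`.
-/

set_option autoImplicit false

namespace Pool.Agent.helper54.Sum

open Finset Equiv Pool.Agent.helper54.Schub Pool.Agent.helper54.Expl Pool.Agent.helper58.Far

/-- the pairs `i < j` in `[m, e)` -/
def TT (m e : ℕ) : Finset (ℕ × ℕ) := (Ico m e ×ˢ Ico m e).filter fun p => p.1 < p.2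

lemma mem_TT {m e : ℕ} {p : ℕ × ℕ} : p ∈ TT m e ↔ m ≤ p.1 ∧ p.1 < p.2 ∧ p.2 < e := by
  rw [TT, mem_filter, mem_product, mem_Ico, mem_Ico]
  omega

lemma two_TT (m e : ℕ) : 2 * (TT m e).card ≤ (e - m) * (e - m - 1) := by
  have h1 : (TT m e ∪ (TT m e).image Prod.swap).card ≤ (Ico m e).offDiag.card := by
    apply card_le_card
    intro p hp
    rw [mem_union, mem_image] at hp
    rw [mem_offDiag, mem_Ico, mem_Ico]
    rcases hp with hp | ⟨q, hq, rfl⟩
    · rw [mem_TT] at hp; omega
    · rw [mem_TT] at hq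
      simp only [Prod.fst_swap, Prod.snd_swap]
      omega
  have h2 : Disjoint (TT m e) ((TT m e).image Prod.swap) := by
    rw [disjoint_left]
    intro p hp hp2
    rw [mem_image] at hp2
    obtain ⟨q, hq, rfl⟩ := hp2
    rw [mem_TT] at hp hq
    simp only [Prod.fst_swap, Prod.snd_swap] at hp
    omega
  rw [card_union_of_disjoint h2, card_image_of_injective _ Prod.swap_injective, offDiag_card,
    Nat.card_Ico] at h1
  rw [Nat.mul_sub_one]
  omega

theorem inv_le (m k e : ℕ) (hmk : m ≤ k) (hke : k ≤ e) (τ : Perm ℕ) (h1 : FB m τ) (h2 : FA e τ)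
    (h3 : PM k τ) : 2 * invN e τ ≤ (k - m) * (k - m - 1) + (e - k) * (e - k - 1) := by
  have h : invS e τ ⊆ TT m k ∪ TT k e := by
    rintro ⟨a, b⟩ hp
    rw [mem_invS] at hp
    obtain ⟨ha, hb, hab, hs⟩ := hp
    simp only at ha hb hab hs
    rw [mem_union, mem_TT, mem_TT]
    simp only
    have p1 : m ≤ a := by
      by_contra hc
      rw [h1 a (by omega)] at hs
      by_cases hbm : b < m
      · rw [h1 b hbm] at hs; omega
      · have := h1.le (not_lt.1 hbm); omega
    have qa := h3 a
    have qb := h3 b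
    by_cases hbk : b < k
    · left; exact ⟨p1, hab, hbk⟩
    · right
      refine ⟨?_, hab, hb⟩
      by_contra hc
      have := qa.2 (by omega)
      have := qb.1 (by omega)
      omega
  have h4 := (card_le_card h).trans (card_union_le _ _)
  have h5 := two_TT m k
  have h6 := two_TT k e
  unfold invN
  omega

theorem inv_le_one (m e : ℕ) (hme : m ≤ e) (τ : Perm ℕ) (h1 : FB m τ) (h2 : FA e τ) :
    2 * invN e τ ≤ (e - m) * (e - m - 1) := by
  have h3 : PM m τ := by
    intro x
    constructor
    · intro hx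
      by_contra hc
      have := h1.le (not_lt.1 hc); omega
    · intro hx; rw [h1 x hx]; exact hx
  have h := inv_le m m e le_rfl hme τ h1 h2 h3
  rw [Nat.sub_self, zero_mul, zero_add] at h
  exact h

end Pool.Agent.helper54.Sum
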