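import Mathlib

/-!
# SUM-NumS: the numerical inequality

Proof.  `(m + 1) / (m - 2 s + 1) = 1 + 2 s / (m - 2 s + 1) ≤ exp (2 s / (m - 2 s + 1))`, so it
suffices that `k * 2 s / (m - 2 s + 1) < log 2 * (s (s + 1) / 2)`; `log 2 > 0.6931`
(`Real.log_two_gt_d9`), `2 k ≤ b (b - 1) + c (c - 1) ≤ b² + c² =: Q`, and
`(s + 1) (m + 1 - 2 s) ≥ s (m - 2 s) = m s - 2 s² ≥ 4 Q - Q = 3 Q` because `s ≤ b`, `s ≤ c`.  So
`k * 2 s * 2 ≤ 2 Q s < 0.6931 * 3 Q s ≤ 0.6931 * s (s + 1) (m + 1 - 2 s)`.  (`2 s ≤ m` follows.)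
-/

set_option autoImplicit false

namespace Pool.Agent.helper54.Sum

theorem num (m b c s k : ℕ) (hs : 1 ≤ s) (hb : s ≤ b) (hc : s ≤ c)
    (hm : 4 * (b ^ 2 + c ^ 2) ≤ m * s) (hk : 2 * k ≤ b * (b - 1) + c * (c - 1)) :
    2 * s ≤ m ∧
      ((m : ℚ) + 1) ^ k < 2 ^ (s * (s + 1) / 2) * (((m - 2 * s : ℕ) : ℚ) + 1) ^ k := by
  have hb2 : s ^ 2 ≤ b ^ 2 := Nat.pow_le_pow_left hb 2
  have hc2 : s ^ 2 ≤ c ^ 2 := Nat.pow_le_pow_left hc 2
  have h8 : 8 * s ≤ m := by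
    have h1 : (8 * s) * s ≤ m * s := by nlinarith
    exact Nat.le_of_mul_le_mul_right h1 (by omega)
  have h2 : 2 * s ≤ m := by omega
  refine ⟨h2, ?_⟩
  have hkQ : 2 * k ≤ b ^ 2 + c ^ 2 := by
    have h3 : b * (b - 1) ≤ b ^ 2 := by
      rw [pow_two]; exact Nat.mul_le_mul_left b (Nat.sub_le b 1)
    have h4 : c * (c - 1) ≤ c ^ 2 := by
      rw [pow_two]; exact Nat.mul_le_mul_left c (Nat.sub_le c 1)
    omega
  -- real numbers
  have key : ((m : ℝ) + 1) ^ k < 2 ^ (s * (s + 1) / 2) * (((m - 2 * s : ℕ) : ℝ) + 1) ^ k := by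
    set T : ℕ := s * (s + 1) / 2 with hT
    have hT2 : (2 : ℝ) * (T : ℝ) = (s : ℝ) * ((s : ℝ) + 1) := by
      have h5 : 2 * T = s * (s + 1) := Nat.two_mul_div_two_of_even (Nat.even_mul_succ_self s)
      exact_mod_cast h5
    set a : ℝ := ((m - 2 * s : ℕ) : ℝ) + 1 with ha
    have ha' : a = (m : ℝ) - 2 * s + 1 := by
      rw [ha, Nat.cast_sub h2]; push_cast; ring
    have ha0 : 0 < a := by positivity
    have hm1 : (m : ℝ) + 1 = a * (1 + 2 * (s : ℝ) / a) := by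
      rw [mul_add, mul_one, mul_div_cancel₀ _ ha0.ne', ha']; ring
    have hle : (m : ℝ) + 1 ≤ a * Real.exp (2 * (s : ℝ) / a) := by
      rw [hm1]
      refine mul_le_mul_of_nonneg_left ?_ ha0.le
      have := Real.add_one_le_exp (2 * (s : ℝ) / a)
      linarith
    have hpow : ((m : ℝ) + 1) ^ k ≤ a ^ k * Real.exp ((k : ℝ) * (2 * (s : ℝ) / a)) := by
      calc ((m : ℝ) + 1) ^ k ≤ (a * Real.exp (2 * (s : ℝ) / a)) ^ k :=
            pow_le_pow_left₀ (by positivity) hle k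
        _ = a ^ k * Real.exp ((k : ℝ) * (2 * (s : ℝ) / a)) := by
            rw [mul_pow, ← Real.exp_nat_mul]
    have hs1 : (1 : ℝ) ≤ s := by exact_mod_cast hs
    have hbR : (s : ℝ) ^ 2 ≤ (b : ℝ) ^ 2 := by exact_mod_cast hb2
    have hcR : (s : ℝ) ^ 2 ≤ (c : ℝ) ^ 2 := by exact_mod_cast hc2
    have hmR : 4 * ((b : ℝ) ^ 2 + (c : ℝ) ^ 2) ≤ (m : ℝ) * s := by exact_mod_cast hm
    have hkR : 2 * (k : ℝ) ≤ (b : ℝ) ^ 2 + (c : ℝ) ^ 2 := by exact_mod_cast hkQ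
    set Q : ℝ := (b : ℝ) ^ 2 + (c : ℝ) ^ 2 with hQ
    have hQ0 : 0 < Q := by nlinarith
    have hsa : 3 * Q ≤ ((s : ℝ) + 1) * a := by
      have h6 : (s : ℝ) * ((m : ℝ) - 2 * s) ≤ ((s : ℝ) + 1) * a := by
        rw [ha']
        have h7 : (0 : ℝ) ≤ (m : ℝ) - 2 * s := by
          have : (2 : ℝ) * s ≤ m := by exact_mod_cast h2
          linarith
        nlinarith
      nlinarith
    have hlog : (0.6931 : ℝ) < Real.log 2 := by
      have := Real.log_two_gt_d9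
      linarith
    have hexp : (k : ℝ) * (2 * (s : ℝ) / a) < (T : ℝ) * Real.log 2 := by
      rw [← mul_div_assoc, div_lt_iff₀ ha0]
      have h8 : (k : ℝ) * (2 * (s : ℝ)) ≤ Q * s := by nlinarith
      have h9 : Q * s < 1.0396 * (Q * s) := by
        have : 0 < Q * s := by positivity
        linarith
      have h10 : (T : ℝ) * Real.log 2 * a = Real.log 2 * (s * (((s : ℝ) + 1) * a)) / 2 := by
        have : (T : ℝ) = (s : ℝ) * ((s : ℝ) + 1) / 2 := by linarith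
        rw [this]; ring
      rw [h10]
      have h11 : (s : ℝ) * (3 * Q) ≤ s * (((s : ℝ) + 1) * a) :=
        mul_le_mul_of_nonneg_left hsa (by linarith)
      have h12 : (0 : ℝ) ≤ s * (3 * Q) := by positivity
      have h13 : 0.6931 * ((s : ℝ) * (3 * Q)) ≤ Real.log 2 * (s * (((s : ℝ) + 1) * a)) :=
        mul_le_mul hlog.le h11 h12 (by linarith)
      nlinarith
    have hexp2 : Real.exp ((k : ℝ) * (2 * (s : ℝ) / a)) < 2 ^ T := by
      rw [← Real.exp_log (by positivity : (0 : ℝ) < 2 ^ T), Real.exp_lt_exp, Real.log_pow]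
      exact hexp
    calc ((m : ℝ) + 1) ^ k ≤ a ^ k * Real.exp ((k : ℝ) * (2 * (s : ℝ) / a)) := hpow
      _ < a ^ k * 2 ^ T := mul_lt_mul_of_pos_left hexp2 (by positivity)
      _ = 2 ^ T * a ^ k := mul_comm _ _
  exact_mod_cast key

end Pool.Agent.helper54.Sum
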