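import Pool.Agent.helper54.Sum.SDefs

/-!
# SUM-Tri: spending `2 s` rows on the triangular piece

Proof.  Write `R = dn (lam ℚ) 1 l m`, so `R ^ m * sch = R ^ (2 s) * (R ^ (m - 2 s) * sch)`.
With `M = dn (lam ℚ) 1 (2 s - 1) (k - s)` one has `ELe M R` (`dn_sub_ge` in `Expl/Ex1`; the
generators of `M` are `k - s, …, k + s - 2`, those of `R` are `m, …, m + l - 1`), hence
`ELe (M ^ (2 s)) (R ^ (2 s))`, and `M ^ (2 s) ≽ 2 ^ (s (s + 1) / 2) • cc k s` is proved in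
`Expl/Ex1` (`M_pow_ge`).  Then, with `f = (R ^ (m - 2 s) * sch) (del ℚ) ≥ 0`, the proof of
`Expl/Ex2` `ex2_inv` / `exists_cc` with `FB m` added (the transpositions used are `sj j` with
`k - s ≤ j ≤ k + s - 2`, and `m ≤ k - s`) gives `τ'` with `cc k s f τ' = f τ`.
-/

set_option autoImplicit false

namespace Pool.Agent.helper54.Sum

open Finset Equiv Pool.Agent.helper54.Schub Pool.Agent.helper54.Expl Pool.Agent.helper58.Far

private lemma triEle_pow {G H : Module.End ℚ (Perm ℕ → ℚ)} (h : ELe G H) (nG : NN G)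
    (nH : NN H) : ∀ n : ℕ, ELe (G ^ n) (H ^ n)
  | 0 => by
    rw [pow_zero, pow_zero]
    exact ELe.rfl' _
  | (n + 1) => by
    rw [pow_succ', pow_succ']
    exact ELe.mul' nG h (triEle_pow h nG nH n) (nH.pow n)

private lemma triSig_fb (a n : ℕ) : ∀ t, n ≤ a → FB n (ex2Sig a t)
  | 0, _ => by
    rw [ex2Sig_zero]
    intro x _
    rfl
  | t + 1, h => by
    rw [ex2Sig_succ]
    exact (triSig_fb a n t h).mul (fb_sj (by omega))

private lemma tri_inv (m k n : ℕ) (w' : Perm ℕ) (h : PM k w') (hfb : FB m w') (hfa : FA n w') :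
    ∀ t, m + t ≤ k → k + t ≤ n → ∃ w : Perm ℕ, FB m w ∧ FA n w ∧
      (∀ f : Perm ℕ → ℚ, cc k t f w = f w') ∧
      ∀ v, w⁻¹ v < k ↔ v < k - t ∨ (v < k + t ∧ k - t ≤ v ∧ (v - (k - t)) % 2 = 1)
  | 0, _, _ => by
      refine ⟨w', hfb, hfa, fun f => rfl, fun v => ?_⟩
      have h1 := h (w'⁻¹ v)
      rw [← Perm.mul_apply, mul_inv_cancel, Perm.one_apply] at h1
      rw [← h1]
      omega
  | t + 1, ht, htn => by
      obtain ⟨w, h0, h1, h2, h3⟩ := tri_inv m k n w' h hfb hfa t (by omega) (by omega)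
      refine ⟨ex2Sig (k - 1 - t) (t + 1) * w, ?_, ?_, ?_, ?_⟩
      · exact (triSig_fb _ m _ (by omega)).mul h0
      · exact (ex2Sig_fa _ n _ (by omega)).mul h1
      · intro f
        have e : cc k (t + 1) f (ex2Sig (k - 1 - t) (t + 1) * w) =
            cG k t (cc k t f) (ex2Sig (k - 1 - t) (t + 1) * w) := rfl
        rw [e]
        unfold cG
        rw [ex2Sig_prod, h2]
        intro i hi
        have l1 : w⁻¹ (k - 1 - t + 2 * i) < k := by rw [h3]; omega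
        have l2 : ¬ w⁻¹ (k - 1 - t + 2 * i + 1) < k := by rw [h3]; omega
        omega
      · intro v
        rw [mul_inv_rev, Perm.mul_apply, ex2Sig_inv, h3]
        split_ifs <;> omega

theorem tri (m l s k : ℕ) (hs : 1 ≤ s) (hsm : 2 * s ≤ m) (h1 : m + s ≤ k)
    (h2 : k + s ≤ m + l + 1) (τ : Perm ℕ) (t1 : FB m τ) (t2 : FA (m + l + 1) τ) (hk : PM k τ) :
    ∃ τ' : Perm ℕ, FB m τ' ∧ FA (m + l + 1) τ' ∧
      2 ^ (s * (s + 1) / 2) * gp m l (m - 2 * s) τ ≤ gp m l m τ' := by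
  obtain ⟨τ', b1, b2, b3, _⟩ := tri_inv m k (m + l + 1) τ hk t1 t2 s h1 h2
  refine ⟨τ', b1, b2, ?_⟩
  have hMR : ELe (dn (lam ℚ) (1 : ℚ) (2 * s - 1) (k - s)) (dn (lam ℚ) (1 : ℚ) l m) := by
    have h3 := dn_sub_ge (k - s - m) (2 * s - 1) (l + m + 1 - k - s) m
    rw [show m + (k - s - m) = k - s by omega,
      show k - s - m + (2 * s - 1 + (l + m + 1 - k - s)) = l by omega] at h3
    exact h3
  have hM := M_pow_ge k s (by omega) s le_rfl
  have e2 : (dn (lam ℚ) (1 : ℚ) (2 * s - 1) (k - s) *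
      dn (lam ℚ) (1 : ℚ) (2 * s - 1) (k - s)) ^ s =
      dn (lam ℚ) (1 : ℚ) (2 * s - 1) (k - s) ^ (2 * s) := by
    rw [← sq, ← pow_mul]
  rw [e2] at hM
  have hR := hM.trans' (triEle_pow hMR (nn_dn _ _) (nn_dn _ _) (2 * s))
  have hf : ∀ w, 0 ≤ (dn (lam ℚ) (1 : ℚ) l m ^ (m - 2 * s) * sch ℚ (lam ℚ) l m) (del ℚ) w :=
    ((nn_dn l m).pow (m - 2 * s)).mul (nn_sch l m) (del ℚ) del_nonneg
  have h5 := hR _ hf τ'
  have e3 : (dn (lam ℚ) (1 : ℚ) l m ^ (2 * s))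
      ((dn (lam ℚ) (1 : ℚ) l m ^ (m - 2 * s) * sch ℚ (lam ℚ) l m) (del ℚ)) τ' = gp m l m τ' := by
    unfold gp cf
    rw [← Module.End.mul_apply, ← mul_assoc, ← pow_add, show 2 * s + (m - 2 * s) = m by omega]
  rw [e3, LinearMap.smul_apply, Pi.smul_apply, smul_eq_mul, b3] at h5
  exact h5

end Pool.Agent.helper54.Sum
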