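import Pool.Agent.helper54.Sum.Cmp
import Pool.Agent.helper54.Sum.Tri
import Pool.Agent.helper54.Sum.InvB
import Pool.Agent.helper54.Sum.NumS

/-!
# SUM-CutA: cut points of a maximizer

Proof.  Let `b = k - m`, `c = e - k`, `s = min b c`, `l = b + c - 1`, so `e = m + l + 1`.  Suppose
`4 (b² + c²) ≤ m s`.  Split `w` at `e` and then at `m` (`pm_split`, `val_split` in `Expl/Layers`):
`w = ρ * τ * δ` with `FA m ρ`, `FB m τ`, `FA e τ`, `PM k τ`, `FB e δ`, `FA n δ`, and
`val n w = val m ρ * gp m l m τ * D` with `D = 1` if `e = n`, else `D = cf δ (…)` (`val_split`).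
`tri` gives `τ'` with `2 ^ (s (s + 1) / 2) gp m l (m - 2 s) τ ≤ gp m l m τ'`; put
`w' = ρ * τ' * δ` (it is `FA n`), `val n w' = val m ρ * gp m l m τ' * D`.  All factors are
positive because `val n w ≥ val n 1 > 0` (`one_le_val`, `val_nonneg`, see `Window.lean`).  By
`gp_ratio` (`p = m - 2 s`) and `num` (with `inv_le`) `gp m l m τ < gp m l m τ'`: contradiction.
-/

set_option autoImplicit false

namespace Pool.Agent.helper54.Sum

open Finset Equiv Pool.Agent.helper54.Schub Pool.Agent.helper54.Expl Pool.Agent.helper58.Far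

/-- the part above a cut point is a positive factor -/
lemma upper_factor {e n : ℕ} (hen : e ≤ n) {δ : Perm ℕ} (h1 : FB e δ) (h2 : FA n δ) :
    ∃ D : ℚ, 0 ≤ D ∧ ∀ ρ : Perm ℕ, FA e ρ → val n (ρ * δ) = val e ρ * D := by
  rcases Nat.lt_or_ge e n with h | h
  · obtain ⟨l, rfl⟩ : ∃ l, n = e + l + 1 := ⟨n - e - 1, by omega⟩
    exact ⟨_, ((nn_dn l e).pow e).mul (nn_sch l e) _ del_nonneg δ, fun ρ hρ => val_split hρ h1⟩
  · have hen' : n = e := by omega
    subst hen'
    have h3 : δ = 1 := by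
      ext x
      by_cases hx : x < n
      · rw [h1 x hx]; rfl
      · rw [h2 x (by omega)]; rfl
    exact ⟨1, zero_le_one, fun ρ _ => by rw [h3, mul_one, mul_one]⟩

theorem cut_ineq (n m k e : ℕ) (w : Perm ℕ) (hw : FA n w) (hmax : ∀ w', FA n w' → val n w' ≤ val n w)
    (hmk : m < k) (hke : k < e) (hen : e ≤ n) (hm : PM m w) (hk : PM k w) (he : PM e w) :
    m * min (k - m) (e - k) < 4 * ((k - m) ^ 2 + (e - k) ^ 2) := by
  by_contra hcon
  rw [not_lt] at hcon
  -- splitting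
  obtain ⟨ρ, δ, hρ, hδ, hwe, hρw⟩ := pm_split he
  have hδn : FA n δ := by
    intro x hx
    have h1 := hw x hx
    rw [hwe, Perm.mul_apply, hρ _ (hδ.le (by omega))] at h1
    exact h1
  have hpm : ∀ q, q ≤ e → PM q w → PM q ρ := by
    intro q hq h x
    by_cases hx : x < e
    · rw [hρw x hx]; exact h x
    · rw [hρ x (by omega)]
  obtain ⟨σ, τ, hσ, hτ, hρe, hσρ⟩ := pm_split (hpm m (by omega) hm)
  have hτe : FA e τ := by
    intro x hx
    have h1 := hρ x hx
    rw [hρe, Perm.mul_apply, hσ _ (hτ.le (by omega))] at h1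
    exact h1
  have hτk : PM k τ := by
    intro x
    by_cases hx : x < m
    · rw [hτ x hx]
    · have h1 := hpm k (by omega) hk x
      rw [hρe, Perm.mul_apply, hσ _ (hτ.le (by omega))] at h1
      exact h1
  obtain ⟨l, hl⟩ : ∃ l, e = m + l + 1 := ⟨e - m - 1, by omega⟩
  obtain ⟨D, hD0, hD⟩ := upper_factor hen hδ hδn
  have hval : ∀ τ' : Perm ℕ, FB m τ' → FA e τ' →
      val n (σ * τ' * δ) = val m σ * gp m l m τ' * D := by
    intro τ' h1 h2
    rw [hD _ ((hσ.mono (by omega)).mul h2), hl, val_split hσ h1, gp]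
  have hw1 : val n w = val m σ * gp m l m τ * D := by
    rw [hwe, hρe]; exact hval τ hτ hτe
  have hpos : 0 < val m σ * gp m l m τ * D := by
    rw [← hw1]
    exact lt_of_lt_of_le one_pos (one_le_val (by omega) hw)
  have g0 := gp_nonneg m l m τ
  have s0 := val_nonneg m σ
  have hD1 : 0 < D := by
    rcases hD0.eq_or_lt with h | h
    · rw [← h, mul_zero] at hpos; exact absurd hpos (lt_irrefl _)
    · exact h
  have hsg : 0 < val m σ * gp m l m τ := (mul_pos_iff_of_pos_right hD1).1 hpos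
  have hg1 : 0 < gp m l m τ := by
    rcases g0.eq_or_lt with h | h
    · rw [← h, mul_zero] at hsg; exact absurd hsg (lt_irrefl _)
    · exact h
  have hs1 : 0 < val m σ := (mul_pos_iff_of_pos_right hg1).1 hsg
  -- numbers
  obtain ⟨s, hs⟩ : ∃ s, s = min (k - m) (e - k) := ⟨_, rfl⟩
  rw [← hs] at hcon
  have hs_b : s ≤ k - m := by rw [hs]; exact min_le_left _ _
  have hs_c : s ≤ e - k := by rw [hs]; exact min_le_right _ _
  have hs_1 : 1 ≤ s := by rw [hs]; exact le_min (by omega) (by omega)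
  obtain ⟨n1, n2⟩ := num m (k - m) (e - k) s (invN e τ) hs_1 hs_b hs_c hcon
    (inv_le m k e (by omega) (by omega) τ hτ hτe hτk)
  have hτe' : FA (m + l + 1) τ := by rw [← hl]; exact hτe
  obtain ⟨τ', a1, a2, a3⟩ := tri m l s k hs_1 n1 (by omega) (by omega) τ hτ hτe' hτk
  have r := gp_ratio m l (m - 2 * s) (by omega) (invN e τ) τ hτ hτe' (by rw [← hl])
  have p0 := gp_nonneg m l (m - 2 * s) τ
  have hB : 0 < (((m - 2 * s : ℕ) : ℚ) + 1) ^ invN e τ := by positivity
  have hlt : gp m l m τ < gp m l m τ' := by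
    refine lt_of_lt_of_le ?_ a3
    have hp : 0 < gp m l (m - 2 * s) τ := by
      rcases p0.eq_or_lt with h | h
      · rw [← h, mul_zero] at r
        exact absurd (mul_pos hB hg1) (not_lt.2 r)
      · exact h
    refine lt_of_mul_lt_mul_left ?_ hB.le
    calc (((m - 2 * s : ℕ) : ℚ) + 1) ^ invN e τ * gp m l m τ
        ≤ ((m : ℚ) + 1) ^ invN e τ * gp m l (m - 2 * s) τ := r
      _ < 2 ^ (s * (s + 1) / 2) * (((m - 2 * s : ℕ) : ℚ) + 1) ^ invN e τ *
          gp m l (m - 2 * s) τ := mul_lt_mul_of_pos_right n2 hp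
      _ = _ := by ring
  have a2' : FA e τ' := by rw [hl]; exact a2
  have h1 := hmax (σ * τ' * δ) ((((hσ.mono (by omega)).mul a2').mono hen).mul hδn)
  rw [hw1, hval τ' a1 a2'] at h1
  exact absurd (mul_lt_mul_of_pos_right (mul_lt_mul_of_pos_left hlt hs1) hD1) (not_lt.2 h1)

end Pool.Agent.helper54.Sum
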