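import Pool.Agent.helper54.Sum.CmpG
import Pool.Agent.helper58.Far.Conv
import Pool.Agent.helper58.Far.Num

/-!
# SUM-Dns: a maximizer in `S_k` has at least `k ^ 2 / 30` inversions (`k ≥ 101`)
-/

set_option autoImplicit false

namespace Pool.Agent.helper54.Sum

open Finset Equiv Pool.Agent.helper54.Schub Pool.Agent.helper54.Expl Pool.Agent.helper58.Far

/-- `a log (K / a) + a ≤ (K / 30) (1 + log 30)` for `30 a < K` -/
lemma dns_phi (a : ℕ) (K : ℝ) (ha : 1 ≤ a) (h : 30 * (a : ℝ) < K) :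
    (a : ℝ) * Real.log K - a * Real.log a + a ≤ K / 30 * (1 + Real.log 30) := by
  have ha' : (1 : ℝ) ≤ a := by exact_mod_cast ha
  have ha0 : (0 : ℝ) < a := by linarith
  have hK : 0 < K := by linarith
  have h1 : Real.log (K / 30 / a) ≤ K / 30 / a - 1 :=
    Real.log_le_sub_one_of_pos (by positivity)
  have h2 : Real.log (K / 30 / a) = Real.log K - Real.log 30 - Real.log a := by
    rw [Real.log_div (by positivity) ha0.ne', Real.log_div hK.ne' (by norm_num)]
  rw [h2] at h1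
  have h3 : (a : ℝ) * (K / 30 / a - 1) = K / 30 - a := by
    field_simp
  have h4 := mul_le_mul_of_nonneg_left h1 ha0.le
  rw [h3] at h4
  have h5 : 0 ≤ Real.log 30 := Real.log_nonneg (by norm_num)
  have h6 : (a : ℝ) * Real.log 30 ≤ K / 30 * Real.log 30 :=
    mul_le_mul_of_nonneg_right (by linarith) h5
  nlinarith

lemma dns_num (k : ℕ) (hk : 101 ≤ k) :
    (k : ℝ) / 10 * (1 + Real.log 30) < ((k : ℝ) - 1) / 2 * Real.log 3 - 2 * Real.log k := by
  have hk' : (101 : ℝ) ≤ k := by exact_mod_cast hk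
  have hkpos : (0 : ℝ) < k := by linarith
  have l1 : Real.log 2 < (0.6932 : ℝ) := by linarith [Real.log_two_lt_d9]
  have l0 : (0.6931 : ℝ) < Real.log 2 := by linarith [Real.log_two_gt_d9]
  have b1 := log_three_ge
  have t1 : (1.095 : ℝ) ≤ Real.log 3 := by linarith
  have t2 : Real.log 30 ≤ 3.466 := by
    have h1 : Real.log 30 ≤ Real.log ((2 : ℝ) ^ 5) :=
      Real.log_le_log (by norm_num) (by norm_num)
    rw [Real.log_pow] at h1
    push_cast at h1
    linarith
  have t3 : Real.log 101 ≤ 4.6214 := by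
    have h1 : Real.log ((101 : ℝ) ^ 3) ≤ Real.log ((2 : ℝ) ^ 20) :=
      Real.log_le_log (by norm_num) (by norm_num)
    rw [Real.log_pow, Real.log_pow] at h1
    push_cast at h1
    linarith
  have t4 : Real.log k ≤ 4.6214 + ((k : ℝ) / 101 - 1) := by
    have h1 : Real.log k = Real.log 101 + Real.log ((k : ℝ) / 101) := by
      rw [← Real.log_mul (by norm_num) (by positivity)]
      congr 1
      field_simp
    have h2 : Real.log ((k : ℝ) / 101) ≤ (k : ℝ) / 101 - 1 :=
      Real.log_le_sub_one_of_pos (by positivity)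
    rw [h1]
    linarith
  have c1 : (k : ℝ) / 10 * (1 + Real.log 30) ≤ (k : ℝ) / 10 * 4.466 :=
    mul_le_mul_of_nonneg_left (by linarith) (by positivity)
  have c2 : ((k : ℝ) - 1) / 2 * 1.095 ≤ ((k : ℝ) - 1) / 2 * Real.log 3 :=
    mul_le_mul_of_nonneg_left t1 (by linarith)
  refine lt_of_le_of_lt c1 (lt_of_lt_of_le ?_ (sub_le_sub c2 (mul_le_mul_of_nonneg_left t4
    (by norm_num : (0 : ℝ) ≤ 2))))
  linarith

theorem dens0 (k : ℕ) (hk : 101 ≤ k) (β : Perm ℕ) (hβ : FA k β)
    (hmax : ∀ β', FA k β' → val k β' ≤ val k β) : k ^ 2 ≤ 30 * invN k β := by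
  by_contra hcon
  push Not at hcon
  obtain ⟨l, rfl⟩ : ∃ l, k = l + 1 := ⟨k - 1, by omega⟩
  obtain ⟨a, ha⟩ : ∃ a, a = invN (l + 1) β := ⟨_, rfl⟩
  rw [← ha] at hcon
  have hG1 : (1 : ℚ) ≤ val (l + 1) β := by
    rw [val_eq_gp]; exact g_one_le l 0 β hβ
  have hGR : (1 : ℝ) ≤ ((val (l + 1) β : ℚ) : ℝ) := by exact_mod_cast hG1
  have hg := g_le l 0 a β hβ ha.symm
  rw [← val_eq_gp] at hg
  have hg' := (Rat.cast_le (K := ℝ)).2 hg
  push_cast at hg'
  have h3 := (Rat.cast_le (K := ℝ)).2 (three_pow (n := l + 1) (val (l + 1) β)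
    (fun x => hmax (iot x) (fa_iot x)))
  push_cast at h3
  obtain ⟨V, hV⟩ : ∃ V : ℝ, V = ((val (l + 1) β : ℚ) : ℝ) := ⟨_, rfl⟩
  rw [← hV] at hg' h3 hGR
  have hV0 : 0 < V := by linarith
  obtain ⟨m, hm⟩ : ∃ m : ℕ, m = l + 1 := ⟨_, rfl⟩
  have hmr : (m : ℝ) = (l : ℝ) + 1 := by rw [hm]; push_cast; ring
  have hm101 : (101 : ℝ) ≤ m := by
    have : 101 ≤ m := by omega
    exact_mod_cast this
  have hmpos : (0 : ℝ) < m := by linarith
  -- upper bound for log V
  have hup : Real.log V ≤ (m : ℝ) ^ 2 / 30 * (1 + Real.log 30) := by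
    rcases Nat.eq_zero_or_pos a with h0 | h0
    · rw [h0] at hg'
      simp only [Nat.factorial_zero, Nat.cast_one, one_mul, pow_zero] at hg'
      have h1 : V = 1 := le_antisymm hg' hGR
      rw [h1, Real.log_one]
      have h5 : 0 ≤ Real.log 30 := Real.log_nonneg (by norm_num)
      positivity
    · have ha' : (1 : ℝ) ≤ a := by exact_mod_cast h0
      have ha0 : (0 : ℝ) < a := by linarith
      have hfa : (0 : ℝ) < a.factorial := by exact_mod_cast Nat.factorial_pos a
      have h1 : ((l : ℝ) * (0 + l + 1)) ^ a ≤ ((m : ℝ) ^ 2) ^ a := by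
        apply pow_le_pow_left₀ (by positivity)
        rw [hmr]
        have : (0 : ℝ) ≤ l := Nat.cast_nonneg l
        nlinarith
      have h2 : (a.factorial : ℝ) * V ≤ ((m : ℝ) ^ 2) ^ a := hg'.trans h1
      have h4 := Real.log_le_log (by positivity) h2
      rw [Real.log_mul hfa.ne' hV0.ne', Real.log_pow] at h4
      have h5 : (a : ℝ) ^ a / a.factorial ≤ Real.exp a := Real.pow_div_factorial_le_exp a ha0.le a
      have h6 := Real.log_le_log (by positivity) h5
      rw [Real.log_exp, Real.log_div (by positivity) hfa.ne', Real.log_pow] at h6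
      have h7 : 30 * (a : ℝ) < (m : ℝ) ^ 2 := by
        rw [hm]
        exact_mod_cast hcon
      have h8 := dns_phi a ((m : ℝ) ^ 2) h0 h7
      linarith
  -- lower bound
  have hf : (0 : ℝ) < (l + 1).factorial := by exact_mod_cast Nat.factorial_pos (l + 1)
  have hN := half_cast (l + 1)
  rw [Nat.add_sub_cancel] at hN
  obtain ⟨N, hNN⟩ : ∃ N, N = (l + 1) * l / 2 := ⟨_, rfl⟩
  rw [← hNN] at h3 hN
  have a1 : (N : ℝ) * Real.log 3 ≤ 2 * Real.log ((l + 1).factorial : ℝ) + 3 * Real.log V := by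
    have := Real.log_le_log (by positivity) h3
    rw [Real.log_pow, Real.log_mul (by positivity) (by positivity), Real.log_pow,
      Real.log_pow] at this
    push_cast at this
    exact this
  have b4 := log_fac_le (l + 1)
  rw [← hm] at b4 hN a1
  have hnum := dns_num m (by omega)
  have c1 : 2 * ((N : ℝ) * Real.log 3) = (m : ℝ) * (m - 1) * Real.log 3 := by
    rw [← mul_assoc, hN]
  have c2 : (m : ℝ) * ((m : ℝ) / 10 * (1 + Real.log 30)) <
      (m : ℝ) * (((m : ℝ) - 1) / 2 * Real.log 3 - 2 * Real.log m) :=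
    mul_lt_mul_of_pos_left hnum hmpos
  have c3 : (m : ℝ) * (((m : ℝ) - 1) / 2 * Real.log 3 - 2 * Real.log m) =
      (m : ℝ) * (m - 1) * Real.log 3 / 2 - 2 * (m * Real.log m) := by ring
  have c4 : 3 * ((m : ℝ) ^ 2 / 30 * (1 + Real.log 30)) =
      (m : ℝ) * ((m : ℝ) / 10 * (1 + Real.log 30)) := by ring
  rw [c3] at c2
  linarith

end Pool.Agent.helper54.Sum
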