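import Pool.Agent.helper54.Sum.Cmp
import Pool.Agent.helper54.Sum.InvB

/-!
# SUM-Exps: upper bound for one block
-/

set_option autoImplicit false

namespace Pool.Agent.helper54.Sum

open Finset Equiv Pool.Agent.helper54.Schub Pool.Agent.helper54.Expl Pool.Agent.helper58.Far

/-- `t ↦ t (1 + log Y - log t)` is nondecreasing on `(0, Y]` -/
theorem se_mono {s t Y : ℝ} (hs : 0 < s) (hst : s ≤ t) (htY : t ≤ Y) :
    s * (1 + Real.log Y - Real.log s) ≤ t * (1 + Real.log Y - Real.log t) := by
  have ht : 0 < t := by linarith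
  have h1 := Real.log_le_sub_one_of_pos (show 0 < t / s by positivity)
  rw [Real.log_div ht.ne' hs.ne'] at h1
  have h2 : s * (Real.log t - Real.log s) ≤ t - s := by
    have h3 := mul_le_mul_of_nonneg_left h1 hs.le
    have h4 : s * (t / s - 1) = t - s := by field_simp
    rwa [h4] at h3
  have h5 : Real.log t ≤ Real.log Y := Real.log_le_log ht htY
  nlinarith

theorem se_pow {Y : ℝ} (hY : 0 < Y) {k : ℕ} (hk : 0 < k) :
    Y ^ k / (k : ℝ) ^ k * Real.exp k = Real.exp ((k : ℝ) * (1 + Real.log Y - Real.log k)) := by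
  have hk0 : (0 : ℝ) < k := by exact_mod_cast hk
  have e1 : (k : ℝ) * (1 + Real.log Y - Real.log k) =
      (k : ℝ) * Real.log Y - (k : ℝ) * Real.log k + k := by ring
  rw [e1, Real.exp_add, Real.exp_sub, Real.exp_nat_mul, Real.exp_nat_mul, Real.exp_log hY,
    Real.exp_log hk0]

theorem gp_exp (n m l : ℕ) (B : ℝ) (hB : (l : ℝ) + 1 ≤ B) (hBn : B ≤ n) (hn : m + l + 1 ≤ n)
    (τ : Perm ℕ) (h1 : FB m τ) (h2 : FA (m + l + 1) τ) :
    ((gp m l m τ : ℚ) : ℝ) ≤ Real.exp (((l : ℝ) + 1) * (B / 2) * Real.log (2 * Real.exp 1 * n / B)) := by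
  have hk := inv_le_one m (m + l + 1) (by omega) τ h1 h2
  have hk' : 2 * invN (m + l + 1) τ ≤ (l + 1) * l := by
    have e1 : m + l + 1 - m = l + 1 := by omega
    rw [e1, Nat.add_sub_cancel] at hk
    exact hk
  have hg := gp_le m l (invN (m + l + 1) τ) τ h1 h2 rfl
  generalize invN (m + l + 1) τ = k at hk' hg
  have hg' : (k.factorial : ℝ) * ((gp m l m τ : ℚ) : ℝ) ≤ ((l : ℝ) * (m + l + 1)) ^ k := by
    exact_mod_cast hg
  generalize ((gp m l m τ : ℚ) : ℝ) = g at hg'
  have hl0 : (0 : ℝ) ≤ l := Nat.cast_nonneg l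
  have hb1 : (1 : ℝ) ≤ (l : ℝ) + 1 := by linarith
  have hB0 : 0 < B := by linarith
  have hn0 : (0 : ℝ) < n := by linarith
  have hmn : (m : ℝ) + l + 1 ≤ n := by exact_mod_cast hn
  -- the logarithm
  have hlog : Real.log (2 * Real.exp 1 * n / B) =
      1 + Real.log (2 * n) - Real.log B := by
    rw [Real.log_div (by positivity) hB0.ne', show (2 : ℝ) * Real.exp 1 * n =
      Real.exp 1 * (2 * n) by ring, Real.log_mul (by positivity) (by positivity), Real.log_exp]
  have hlogn : Real.log B ≤ Real.log (2 * n) := Real.log_le_log hB0 (by linarith)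
  rcases Nat.eq_zero_or_pos k with hk0 | hk0
  · rw [hk0] at hg'
    simp only [Nat.factorial_zero, Nat.cast_one, one_mul, pow_zero] at hg'
    refine hg'.trans (Real.one_le_exp ?_)
    rw [hlog]
    apply mul_nonneg
    · positivity
    · linarith
  · have hkr : (0 : ℝ) < k := by exact_mod_cast hk0
    set b : ℝ := (l : ℝ) + 1 with hb
    set Y : ℝ := b * n with hY
    have hY0 : 0 < Y := by positivity
    have hX0 : 0 ≤ (l : ℝ) * (m + l + 1) := by positivity
    have hXY : (l : ℝ) * (m + l + 1) ≤ Y := by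
      rw [hY, hb]
      nlinarith
    have hf : (0 : ℝ) < k.factorial := by exact_mod_cast k.factorial_pos
    have hkb : (k : ℝ) ≤ b ^ 2 / 2 := by
      have h3 : 2 * (k : ℝ) ≤ ((l : ℝ) + 1) * l := by exact_mod_cast hk'
      rw [hb]
      nlinarith
    have hbY : b ^ 2 / 2 ≤ Y := by
      rw [hY]
      nlinarith
    have hfe := Real.pow_div_factorial_le_exp (k : ℝ) hkr.le k
    have hstep : g ≤ Real.exp ((k : ℝ) * (1 + Real.log Y - Real.log k)) := by
      have a1 : g ≤ ((l : ℝ) * (m + l + 1)) ^ k / k.factorial := by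
        rw [le_div_iff₀ hf]
        linarith
      have a2 : ((l : ℝ) * (m + l + 1)) ^ k / k.factorial ≤ Y ^ k / k.factorial :=
        div_le_div_of_nonneg_right (pow_le_pow_left₀ hX0 hXY k) hf.le
      have a3 : Y ^ k / (k.factorial : ℝ) = Y ^ k / (k : ℝ) ^ k * ((k : ℝ) ^ k / k.factorial) := by
        have : (k : ℝ) ^ k ≠ 0 := by positivity
        field_simp
      have a4 : Y ^ k / (k : ℝ) ^ k * ((k : ℝ) ^ k / k.factorial) ≤
          Y ^ k / (k : ℝ) ^ k * Real.exp k :=
        mul_le_mul_of_nonneg_left hfe (by positivity)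
      rw [se_pow hY0 hk0] at a4
      rw [← a3] at a4
      exact a1.trans (a2.trans a4)
    refine hstep.trans (Real.exp_le_exp.2 ?_)
    have c1 := se_mono hkr hkb hbY
    have c2 := se_mono (show 0 < b by linarith) hB (show B ≤ 2 * n by linarith)
    have c3 : Real.log Y = Real.log b + Real.log n := by
      rw [hY, Real.log_mul (by positivity) hn0.ne']
    have c4 : Real.log (b ^ 2 / 2) = 2 * Real.log b - Real.log 2 := by
      rw [Real.log_div (by positivity) (by norm_num), Real.log_pow]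
      push_cast
      ring
    have c5 : Real.log (2 * n) = Real.log 2 + Real.log n :=
      Real.log_mul (by norm_num) hn0.ne'
    rw [hlog]
    calc (k : ℝ) * (1 + Real.log Y - Real.log k)
        ≤ b ^ 2 / 2 * (1 + Real.log Y - Real.log (b ^ 2 / 2)) := c1
      _ = b / 2 * (b * (1 + Real.log (2 * n) - Real.log b)) := by
          rw [c3, c4, c5]
          ring
      _ ≤ b / 2 * (B * (1 + Real.log (2 * n) - Real.log B)) :=
          mul_le_mul_of_nonneg_left c2 (by positivity)
      _ = b * (B / 2) * (1 + Real.log (2 * n) - Real.log B) := by ring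

end Pool.Agent.helper54.Sum
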