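import Pool.Agent.helper54.Sum.Mac

/-!
# Shift of a permutation (project SUM-G, MP_cb98a7_co)

`gp 0 l p τ` (`FA (l + 1) τ`) is the value of the block `τ ∈ S_{l+1}` with `p` rows above it, that is
`ν (1_p × τ)`; `gp 0 l 0 τ = val (l + 1) τ`.  The exact Macdonald identity `macd'` holds for all
`m`, `l`, `p`, `τ`.
-/

set_option autoImplicit false

namespace Pool.Agent.helper54.Sum

open Finset Equiv Pool.Agent.helper54.Schub Pool.Agent.helper54.Expl Pool.Agent.helper58.Far

/-- the permutation `x ↦ τ (x - r) + r` for `x ≥ r`, `x ↦ x` for `x < r` -/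
def sh (r : ℕ) (τ : Perm ℕ) : Perm ℕ where
  toFun x := if x < r then x else τ (x - r) + r
  invFun x := if x < r then x else τ⁻¹ (x - r) + r
  left_inv := by
    intro x
    by_cases h : x < r
    · simp only [h, if_true]
    · simp only [h, if_false]
      have h1 : ¬ (τ (x - r) + r < r) := by omega
      simp only [h1, if_false, Nat.add_sub_cancel]
      rw [← Perm.mul_apply, inv_mul_cancel, Perm.one_apply]
      omega
  right_inv := by
    intro x
    by_cases h : x < r
    · simp only [h, if_true]
    · simp only [h, if_false]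
      have h1 : ¬ (τ⁻¹ (x - r) + r < r) := by omega
      simp only [h1, if_false, Nat.add_sub_cancel]
      rw [← Perm.mul_apply, mul_inv_cancel, Perm.one_apply]
      omega

lemma sh_apply (r : ℕ) (τ : Perm ℕ) (x : ℕ) : sh r τ x = if x < r then x else τ (x - r) + r := rfl

lemma sh_inv_apply (r : ℕ) (τ : Perm ℕ) (x : ℕ) :
    (sh r τ)⁻¹ x = if x < r then x else τ⁻¹ (x - r) + r := rfl

lemma val_eq_gp (l : ℕ) (τ : Perm ℕ) : val (l + 1) τ = gp 0 l 0 τ := by
  unfold gp Pool.Agent.helper54.Schub.val
  rw [pow_zero, one_mul, Nat.add_sub_cancel]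

end Pool.Agent.helper54.Sum
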