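import Mathlib

/-!
# SUM-NumR: the numerical inequality for the exchange

Proof.  `log ((c + k - 1) / (k - 1)) ≥ c / (c + k - 1) ≥ c / (k + c)`, so the right side divided by
`(k - 1) ^ a` is at least `exp (k ^ 2 c / (30 (k + c))) g!`.  For `g ≥ 1`: `g! ≥ (g / e) ^ g`, so
`log ((c (k + c)) ^ g / g!) ≤ g (1 + log (X / g)) ≤ G (1 + log (X / G))` with `X = c (k + c)` and
`G = c ^ 2 / 2 ≥ g`.  Then `log y ≤ log 202 + y / 202 - 1` at `y = 2 (k + c) / c` and
`log 202 ≤ 8 log 2`.
-/

set_option autoImplicit false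

namespace Pool.Agent.helper54.Sum

private lemma NumR_log202 : Real.log 202 ≤ 5.5452 := by
  have h1 : Real.log 202 ≤ Real.log ((2 : ℝ) ^ 8) :=
    Real.log_le_log (by norm_num) (by norm_num)
  rw [Real.log_pow] at h1
  have h2 := Real.log_two_lt_d9
  norm_num at h1 ⊢
  linarith

private lemma NumR_log_le (y : ℝ) (hy : 0 < y) : Real.log y ≤ Real.log 202 + y / 202 - 1 := by
  have h1 := Real.log_le_sub_one_of_pos (show 0 < y / 202 by positivity)
  rw [Real.log_div hy.ne' (by norm_num)] at h1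
  linarith

private lemma NumR_mono (g G X : ℝ) (hg : 0 < g) (hgG : g ≤ G) (hGX : G ≤ X) :
    g * Real.log X - g * Real.log g + g ≤ G * (1 + Real.log (X / G)) := by
  have hG : 0 < G := lt_of_lt_of_le hg hgG
  have hX : 0 < X := lt_of_lt_of_le hG hGX
  have h1 := Real.log_le_sub_one_of_pos (show 0 < G / g by positivity)
  rw [Real.log_div hG.ne' hg.ne'] at h1
  have h2 : 0 ≤ Real.log (X / G) := Real.log_nonneg ((one_le_div hG).2 hGX)
  have h3 : g * (Real.log G - Real.log g) ≤ G - g := by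
    have := mul_le_mul_of_nonneg_left h1 hg.le
    have e : g * (G / g - 1) = G - g := by field_simp
    linarith
  have h4 : g * Real.log (X / G) ≤ G * Real.log (X / G) := mul_le_mul_of_nonneg_right hgG h2
  have h5 : Real.log (X / G) = Real.log X - Real.log G := Real.log_div hX.ne' hG.ne'
  have h6 : g * Real.log (X / G) = g * Real.log X - g * Real.log G := by rw [h5]; ring
  have h7 : g * (Real.log G - Real.log g) = g * Real.log G - g * Real.log g := by ring
  have h8 : G * (1 + Real.log (X / G)) = G + G * Real.log (X / G) := by ring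
  rw [h8]
  linarith

private lemma NumR_num (K C : ℝ) (hC : 1 ≤ C) (hK : 100 * C < K) :
    C ^ 2 / 2 * (1 + Real.log (C * (K + C) / (C ^ 2 / 2))) < K ^ 2 / 30 * (C / (K + C)) := by
  have hC0 : 0 < C := by linarith
  have hK0 : 0 < K := by linarith
  have e : C * (K + C) / (C ^ 2 / 2) = 2 * (K + C) / C := by
    field_simp
  rw [e]
  have h1 := NumR_log_le (2 * (K + C) / C) (by positivity)
  have h2 := NumR_log202
  have h3 : 1 + Real.log (2 * (K + C) / C) ≤ 5.5452 + (K + C) / (101 * C) := by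
    have : 2 * (K + C) / C / 202 = (K + C) / (101 * C) := by
      field_simp
      ring
    linarith
  have h4 : C ^ 2 / 2 * (1 + Real.log (2 * (K + C) / C)) ≤
      C ^ 2 / 2 * (5.5452 + (K + C) / (101 * C)) := mul_le_mul_of_nonneg_left h3 (by positivity)
  have h5 : C ^ 2 / 2 * (5.5452 + (K + C) / (101 * C)) =
      C * ((5.5452 * C + (K + C) / 101) / 2) := by
    field_simp
  refine lt_of_le_of_lt h4 ?_
  rw [h5]
  have h6 : K ^ 2 / 30 * (C / (K + C)) = C * (K ^ 2 / (30 * (K + C))) := by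
    field_simp
  rw [h6]
  refine mul_lt_mul_of_pos_left ?_ hC0
  rw [lt_div_iff₀ (by positivity)]
  have h7 : (5.5452 * C + (K + C) / 101) / 2 * (30 * (K + C)) =
      15 * (5.5452 * C + (K + C) / 101) * (K + C) := by ring
  rw [h7]
  have h8 : 5.5452 * C + (K + C) / 101 ≤ 0.065452 * K := by linarith
  have h9 : K + C ≤ 1.01 * K := by linarith
  calc 15 * (5.5452 * C + (K + C) / 101) * (K + C)
      ≤ 15 * (0.065452 * K) * (1.01 * K) := by
        apply mul_le_mul
        · linarith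
        · exact h9
        · positivity
        · positivity
    _ < K ^ 2 := by nlinarith [sq_nonneg K, mul_pos hK0 hK0]

private lemma NumR_fact (g : ℕ) (hg : 1 ≤ g) :
    (g : ℝ) * Real.log g - g ≤ Real.log (g.factorial : ℝ) := by
  have hg0 : (0 : ℝ) < g := by exact_mod_cast hg
  have hf : (0 : ℝ) < (g.factorial : ℝ) := by exact_mod_cast g.factorial_pos
  have h1 := Real.pow_div_factorial_le_exp (g : ℝ) hg0.le g
  have h2 := Real.log_le_log (div_pos (pow_pos hg0 g) hf) h1
  rw [Real.log_exp, Real.log_div (pow_pos hg0 g).ne' hf.ne', Real.log_pow] at h2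
  linarith

theorem num_ratio (k c a g : ℕ) (hc : 1 ≤ c) (h : 100 * c < k) (h1 : k ^ 2 ≤ 30 * a)
    (h2 : 2 * g ≤ c * (c - 1)) :
    ((k : ℝ) - 1) ^ a * ((c : ℝ) * (k + c)) ^ g < ((c : ℝ) + (k - 1)) ^ a * g.factorial := by
  have hkc : (100 : ℝ) * c < k := by exact_mod_cast h
  have hc1 : (1 : ℝ) ≤ c := by exact_mod_cast hc
  have ha : (k : ℝ) ^ 2 ≤ 30 * a := by exact_mod_cast h1
  have hk : (100 : ℝ) < k := by linarith
  have ha0 : (0 : ℝ) < a := by nlinarith
  have ha0' : a ≠ 0 := by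
    rintro rfl
    simp at ha0
  rcases Nat.eq_zero_or_pos g with rfl | hg
  · rw [pow_zero, mul_one, Nat.factorial_zero, Nat.cast_one, mul_one]
    exact pow_lt_pow_left₀ (by linarith) (by linarith) ha0'
  · have hg1 : (1 : ℝ) ≤ g := by exact_mod_cast hg
    have hG : (g : ℝ) ≤ (c : ℝ) ^ 2 / 2 := by
      have h3 : 2 * g ≤ c * c := h2.trans (Nat.mul_le_mul_left _ (Nat.sub_le _ _))
      have h4 : (2 : ℝ) * g ≤ c * c := by exact_mod_cast h3
      have h5 : (c : ℝ) ^ 2 = c * c := sq _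
      rw [h5]
      linarith
    have hp1 : (0 : ℝ) < (k : ℝ) - 1 := by linarith
    have hp2 : (0 : ℝ) < (c : ℝ) + (k - 1) := by linarith
    have hX : (0 : ℝ) < (c : ℝ) * (k + c) := by positivity
    have hf : (0 : ℝ) < (g.factorial : ℝ) := by exact_mod_cast g.factorial_pos
    have hGX : (c : ℝ) ^ 2 / 2 ≤ (c : ℝ) * (k + c) := by nlinarith
    have hm := NumR_mono (g : ℝ) ((c : ℝ) ^ 2 / 2) ((c : ℝ) * (k + c)) (by linarith) hG hGX
    have hn := NumR_num (k : ℝ) (c : ℝ) hc1 hkc
    have hfac := NumR_fact g hg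
    have hr : (c : ℝ) / (k + c) ≤
        Real.log ((c : ℝ) + (k - 1)) - Real.log ((k : ℝ) - 1) := by
      rw [← Real.log_div hp2.ne' hp1.ne']
      have := Real.one_sub_inv_le_log_of_pos (show 0 < ((c : ℝ) + (k - 1)) / (k - 1) by positivity)
      refine le_trans ?_ this
      rw [inv_div, one_sub_div hp2.ne']
      have e : (c : ℝ) + (k - 1) - (k - 1) = c := by ring
      rw [e]
      exact div_le_div_of_nonneg_left (by linarith) hp2 (by linarith)
    have hq : (0 : ℝ) ≤ (c : ℝ) / (k + c) := by positivity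
    have hs : (k : ℝ) ^ 2 / 30 * ((c : ℝ) / (k + c)) ≤
        a * (Real.log ((c : ℝ) + (k - 1)) - Real.log ((k : ℝ) - 1)) := by
      have : (k : ℝ) ^ 2 / 30 ≤ a := by linarith
      exact mul_le_mul this hr hq ha0.le
    rw [← Real.log_lt_log_iff (mul_pos (pow_pos hp1 a) (pow_pos hX g))
      (mul_pos (pow_pos hp2 a) hf), Real.log_mul (pow_pos hp1 a).ne' (pow_pos hX g).ne',
      Real.log_mul (pow_pos hp2 a).ne' hf.ne', Real.log_pow, Real.log_pow, Real.log_pow]
    have hs' : a * (Real.log ((c : ℝ) + (k - 1)) - Real.log ((k : ℝ) - 1)) =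
        a * Real.log ((c : ℝ) + (k - 1)) - a * Real.log ((k : ℝ) - 1) := by ring
    linarith

end Pool.Agent.helper54.Sum
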