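import Pool.Agent.helper54.Sum.Swp
import Pool.Agent.helper54.Sum.Dns
import Pool.Agent.helper54.Sum.NumR
import Pool.Agent.helper54.Sum.InvB

/-!
# SUM-Geo: the direct summands of a maximizer grow geometrically

Proof.  Let `c = e - k`, suppose `100 c < k` (so `k ≥ 101`).  `swap0` gives `β`, `γ`.  With
`a = invN k β`, `g = invN c γ`: `dens0` gives `k ^ 2 ≤ 30 a`, `inv_le_one` (with `m = 0`) gives
`2 g ≤ c (c - 1)`.  `g_up` (`l = k - 1`, `p = 0`, `p' = c`):
`(c + (k - 1)) ^ a * val k β ≤ (k - 1) ^ a * gp 0 (k - 1) c β`.  `g_le` (`l = c - 1`, `p = k`):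
`g! * gp 0 (c - 1) k γ ≤ ((c - 1) (k + c)) ^ g ≤ (c (k + c)) ^ g`.  `g_one_le`: `val c γ ≥ 1`,
`val k β ≥ 1`.  So `(c + (k - 1)) ^ a * g! ≤ (k - 1) ^ a * (c (k + c)) ^ g`, against `num_ratio`.
-/

set_option autoImplicit false

namespace Pool.Agent.helper54.Sum

open Finset Equiv Pool.Agent.helper54.Schub Pool.Agent.helper54.Expl Pool.Agent.helper58.Far

theorem geo (n k e : ℕ) (w : Perm ℕ) (hw : FA n w) (hmax : ∀ w', FA n w' → val n w' ≤ val n w)
    (hk0 : 0 < k) (hke : k < e) (hen : e ≤ n) (h1 : PM k w) (h2 : PM e w) :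
    k ≤ 100 * (e - k) := by
  by_contra hcon
  rw [not_le] at hcon
  obtain ⟨β, γ, hβ, hγ, hβm, hineq⟩ := swap0 n k e w hw hmax hk0 hke hen h1 h2
  obtain ⟨c, hc⟩ : ∃ c, e - k = c := ⟨_, rfl⟩
  rw [hc] at hcon hγ hineq
  have hc1 : 1 ≤ c := by omega
  obtain ⟨a, ha⟩ : ∃ a, invN k β = a := ⟨_, rfl⟩
  obtain ⟨g, hg⟩ : ∃ g, invN c γ = g := ⟨_, rfl⟩
  have q1 : k ^ 2 ≤ 30 * a := by rw [← ha]; exact dens0 k (by omega) β hβ hβm
  have q2 : 2 * g ≤ c * (c - 1) := by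
    have h := inv_le_one 0 c (Nat.zero_le c) γ (fun x hx => absurd hx (Nat.not_lt_zero x)) hγ
    rw [hg, Nat.sub_zero] at h
    exact h
  have q3 := num_ratio k c a g hc1 hcon q1 q2
  obtain ⟨K, hK⟩ : ∃ K, k = K + 1 := ⟨k - 1, by omega⟩
  obtain ⟨C, hC⟩ : ∃ C, c = C + 1 := ⟨c - 1, by omega⟩
  have b1 := g_up K 0 c (Nat.zero_le c) a β (by rw [← hK]; exact hβ) (by rw [← hK]; exact ha)
  have b2 := g_le C k g γ (by rw [← hC]; exact hγ) (by rw [← hC]; exact hg)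
  have v0 : val k β = gp 0 K 0 β := by rw [hK]; exact val_eq_gp K β
  have v1 : 1 ≤ val k β := one_le_val (by omega) hβ
  have v2 : 1 ≤ val c γ := one_le_val hc1 hγ
  rw [show k - 1 = K by omega, show c - 1 = C by omega] at hineq
  rw [← v0] at b1
  have hCc : (C : ℚ) * (k + C + 1) ≤ (c : ℚ) * (k + c) := by
    rw [hC]; push_cast
    have : (0 : ℚ) ≤ k := by positivity
    have : (0 : ℚ) ≤ C := by positivity
    nlinarith
  have hCc0 : (0 : ℚ) ≤ (C : ℚ) * (k + C + 1) := by positivity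
  have b3 : (g.factorial : ℚ) * gp 0 C k γ ≤ ((c : ℚ) * (k + c)) ^ g :=
    b2.trans (pow_le_pow_left₀ hCc0 hCc g)
  have G0 := gp_nonneg 0 K c β
  have K0 : (0 : ℚ) ≤ (K : ℚ) ^ a := by positivity
  have f0 : (0 : ℚ) ≤ g.factorial := by positivity
  push_cast at b1
  rw [zero_add] at b1
  have key : ((c : ℚ) + K) ^ a * g.factorial * val k β ≤
      (K : ℚ) ^ a * ((c : ℚ) * (k + c)) ^ g * val k β := by
    calc ((c : ℚ) + K) ^ a * g.factorial * val k β
        = g.factorial * (((c : ℚ) + K) ^ a * val k β) * 1 := by ring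
      _ ≤ g.factorial * (((c : ℚ) + K) ^ a * val k β) * val c γ :=
        mul_le_mul_of_nonneg_left v2 (by positivity)
      _ ≤ g.factorial * ((K : ℚ) ^ a * gp 0 K c β) * val c γ :=
        mul_le_mul_of_nonneg_right (mul_le_mul_of_nonneg_left b1 f0) (by linarith)
      _ = g.factorial * (K : ℚ) ^ a * (gp 0 K c β * val c γ) := by ring
      _ ≤ g.factorial * (K : ℚ) ^ a * (val k β * gp 0 C k γ) :=
        mul_le_mul_of_nonneg_left hineq (by positivity)
      _ = (K : ℚ) ^ a * val k β * (g.factorial * gp 0 C k γ) := by ring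
      _ ≤ (K : ℚ) ^ a * val k β * ((c : ℚ) * (k + c)) ^ g :=
        mul_le_mul_of_nonneg_left b3 (by positivity)
      _ = _ := by ring
  have key2 := le_of_mul_le_mul_right key (by linarith)
  have key3 : ((c : ℝ) + K) ^ a * g.factorial ≤ (K : ℝ) ^ a * ((c : ℝ) * (k + c)) ^ g := by
    exact_mod_cast key2
  have e1 : (k : ℝ) - 1 = K := by rw [hK]; push_cast; ring
  rw [e1] at q3
  exact absurd q3 (not_lt.2 key3)

end Pool.Agent.helper54.Sum
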