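import Pool.Agent.helper54.Sum.SDefs
import Pool.Agent.helper58.Far.Mac

/-!
# SUM-Mac: the Macdonald identity for a block with `p ≤ m` rows above it

Proof.  Let `u' j = if j < m then 0 else lam ℚ j`; it satisfies `NilCox u'`.  With the word
`L = (wdn l m) ^ p ++ wsc l m` (p copies) we have `wp (lam ℚ) x L = dn (lam ℚ) x l m ^ p *
schx (lam ℚ) x l m = schx u' x (l + p) (m - p)` (the truncated rows: `dn u' x (l + q) (m - q) =
dn (lam ℚ) x l m`).  `srv_mul_schx` (abstract in `u`) and its consequence `srv u' y = schx u' y`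
(as `srv_eq_schx`) give the group law `wp (lam ℚ) (x + t) L = wp (lam ℚ) t L * wp (lam ℚ) x L`.
Take `x = 1`, apply to `del ℚ` at `τ`: by `cf_wp_homog` the left side is
`(1 + t) ^ (invN τ) * gp m l p τ`; the right side is a polynomial in `t` whose coefficient of
`t ^ 1` is `∑_{j ∈ L} [τ⁻¹ (j + 1) < τ⁻¹ j] gp m l p (sj j * τ)` (`lam_apply`).  Compare the
coefficients of `t ^ 1` (polynomial identity for all rational `t`).  The letter `m + i`, `i < l`,
occurs `p + 1 + i` times in `L` (`countP_wdn`, `countP_wsc` in `helper58/Far/Maj`).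
-/

set_option autoImplicit false

namespace Pool.Agent.helper54.Sum

open Finset Equiv Pool.Agent.helper54.Schub Pool.Agent.helper54.Expl Pool.Agent.helper58.Far

/-- the exact identity, for every `p`, `m`, `l` and every permutation `τ` -/
theorem macd' (m l p : ℕ) (τ : Perm ℕ) :
    (invN (m + l + 1) τ : ℚ) * gp m l p τ =
      ∑ i ∈ range l, if τ⁻¹ (m + i + 1) < τ⁻¹ (m + i) then
        ((p : ℚ) + 1 + i) * gp m l p (sj (m + i) * τ) else 0 := by
  have h := macdonald p l m (m + l + 1) (by omega) τ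
  unfold gp
  rw [h]
  apply sum_congr rfl
  intro i _
  split_ifs
  · ring
  · ring

theorem macd (m l p : ℕ) (hp : p ≤ m) (τ : Perm ℕ) (h1 : FB m τ) (h2 : FA (m + l + 1) τ) :
    (invN (m + l + 1) τ : ℚ) * gp m l p τ =
      ∑ i ∈ range l, if τ⁻¹ (m + i + 1) < τ⁻¹ (m + i) then
        ((p : ℚ) + 1 + i) * gp m l p (sj (m + i) * τ) else 0 :=
  macd' m l p τ

end Pool.Agent.helper54.Sum
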