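import Pool.Agent.helper54.Sum.CutA
import Pool.Agent.helper54.Sum.Comb
import Pool.Agent.helper54.Sum.Big
import Pool.Agent.helper54.Sum.CDefs
import Pool.Agent.helper58.Far.Window

/-!
# The structure theorem for maximizers
-/

set_option autoImplicit false

namespace Pool.Agent.helper54.Sum

open Finset Equiv Pool.Agent.helper54.Schub Pool.Agent.helper54.Expl Pool.Agent.helper58.Far

lemma isCut_iff {n : ℕ} (w : Perm (Fin n)) (k : ℕ) : IsCut w k ↔ k ≤ n ∧ PM k (iot w) := by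
  constructor
  · rintro ⟨h1, h2⟩
    refine ⟨h1, pm_of_maps fun x hx => ?_⟩
    have e := iot_apply w ⟨x, by omega⟩
    simp only at e
    rw [e]
    exact h2 _ hx
  · rintro ⟨h1, h2⟩
    refine ⟨h1, fun i hi => ?_⟩
    have e := iot_apply w i
    rw [← e]
    exact (h2 _).2 hi

/-- **Structure theorem.** -/
theorem structure_thm (n : ℕ) (S : Perm (Fin n) → MvPolynomial (Fin n) ℤ) (hS : IsSchubert n S)
    (w : Perm (Fin n)) (hw : ∀ x : Perm (Fin n), nu S x ≤ nu S w) :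
    (∀ m b c : ℕ, 1 ≤ b → 1 ≤ c → IsCut w m → IsCut w (m + b) → IsCut w (m + b + c) →
      m * min b c < 4 * (b ^ 2 + c ^ 2)) ∧
    summands w ≤ 16 * (Nat.log 2 n + 1) ^ 2 ∧
    (∀ m a b : ℕ, 12 ≤ m → 1 ≤ a → 1 ≤ b → m + a + b ≤ n → ¬ AdjLayers m a b w) ∧
    (10 ^ 6 ≤ n →
      (∃ x y : ℕ, x < y ∧ IsCut w x ∧ IsCut w y ∧ (∀ z, x < z → z < y → ¬ IsCut w z) ∧
        n ≤ 12 * (y - x)) ∧
      n ^ 2 ≤ 17 * inversions w ∧ 1000 * inversions w ≤ 357 * n ^ 2 ∧
      n ≤ 17 * descents w ∧ n ≤ 17 * descents w⁻¹) := by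
  have hfa : FA n (iot w) := fa_iot w
  have hmax : ∀ w', FA n w' → val n w' ≤ val n (iot w) := by
    intro w' hw'
    have h1 := nu_eq_val hS (rst w' hw')
    have h2 := nu_eq_val hS w
    rw [iot_rst] at h1
    rw [← h1, ← h2]
    exact_mod_cast hw _
  have key : ∀ m b c : ℕ, 1 ≤ b → 1 ≤ c → IsCut w m → IsCut w (m + b) → IsCut w (m + b + c) →
      m * min b c < 4 * (b ^ 2 + c ^ 2) := by
    intro m b c hb hc c1 c2 c3
    rw [isCut_iff] at c1 c2 c3
    have h := cut_ineq n m (m + b) (m + b + c) (iot w) hfa hmax (by omega) (by omega) c3.1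
      c1.2 c2.2 c3.2
    rwa [Nat.add_sub_cancel_left, Nat.add_sub_cancel_left] at h
  refine ⟨key, ?_, ?_, ?_⟩
  · apply comb
    · intro z hz
      rw [mem_filter, mem_Icc] at hz
      exact hz.1
    · intro x hx z hz y hy hxz hzy
      rw [mem_filter] at hx hz hy
      have h := key x (z - x) (y - z) (by omega) (by omega) hx.2
        (by rw [show x + (z - x) = z by omega]; exact hz.2)
        (by rw [show x + (z - x) + (y - z) = y by omega]; exact hy.2)
      exact h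
  · intro m a b hm ha hb hn hA
    obtain ⟨v, hv⟩ := adj_layers n m a b hm ha hb hn S hS w hA
    exact absurd (hw v) (not_le.2 hv)
  · intro hn
    refine ⟨?_, window n hn S hS w hw⟩
    obtain ⟨x, y, hxy, hyn, hx, hy, hno, hb⟩ := big_summand n hn (iot w) hfa hmax
    refine ⟨x, y, hxy, (isCut_iff w x).2 ⟨by omega, hx⟩, (isCut_iff w y).2 ⟨hyn, hy⟩, ?_, hb⟩
    intro z h1 h2 h3
    exact hno z h1 h2 ((isCut_iff w z).1 h3).2

end Pool.Agent.helper54.Sum
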