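import Pool.Agent.helper54.Expl.Layers
import Pool.Agent.helper58.Far.Maj

/-!
# Direct summands of maximizers: definitions (project SUM, MP_cb98a7_co)

Library: `Schub/*`, `Expl/*`, `helper58/Far/*`.  `lam ℚ j` is left multiplication by the nilCoxeter
generator `u_j` on functions on `Perm ℕ` (`lam_apply`), `fac u x j = 1 + x • u j`,
`dn u x l p = (1 + x u_{p+l-1}) ⋯ (1 + x u_p)`, `sch K u l p = dn 1 l p * dn 1 (l-1) (p+1) * ⋯`,
`cf w G = G (del ℚ) w`, `val n w = cf w (sch ℚ (lam ℚ) (n - 1) 0)`, `FA k w`: `w` fixes all `x ≥ k`,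
`FB k w`: `w` fixes all `x < k`, `PM k w`: `w x < k ↔ x < k`, `invN n w`: number of inversions with
positions below `n`, `wp u x L`: product of `fac u x j` over the word `L`.
-/

set_option autoImplicit false

namespace Pool.Agent.helper54.Sum

open Finset Equiv Pool.Agent.helper54.Schub Pool.Agent.helper54.Expl Pool.Agent.helper58.Far

noncomputable section

/-- value of a block `τ` on the letters `m, …, m + l`, with `p` rows above it -/
def gp (m l p : ℕ) (τ : Perm ℕ) : ℚ :=
  cf τ (dn (lam ℚ) (1 : ℚ) l m ^ p * sch ℚ (lam ℚ) l m)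

end

end Pool.Agent.helper54.Sum
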