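import Pool.Agent.helper54.Sum.GDefs

/-!
# SUM-Shf: shifting a block

Proof of `gp_sh`: `dn (lam ℚ) 1 l r ^ p * sch ℚ (lam ℚ) l r = wp (lam ℚ) 1 L` for a word `L`
(`wA l r p` in `helper58/Far/Mac`, lemma `wp_wA`), and the word for `r` is the word for `0` with all
letters shifted by `r` (`wdn l (q + r) = (wdn l q).map (· + r)`, the same for `wsc`).  By induction
on the word, `cf (sh r τ) (wp (lam ℚ) x (L.map (· + r))) = cf τ (wp (lam ℚ) x L)`: expand the first
letter (`wp_cons`, `fac_apply`, `lam_apply`), `sj (j + r) * sh r τ = sh r (sj j * τ)` and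
`(sh r τ)⁻¹ (j + r + 1) < (sh r τ)⁻¹ (j + r) ↔ τ⁻¹ (j + 1) < τ⁻¹ j`; `del ℚ (sh r τ) = del ℚ τ`.
`exists_sh`: `τ0 x = τ (x + m) - m`.
-/

set_option autoImplicit false

namespace Pool.Agent.helper54.Sum

open Finset Equiv Pool.Agent.helper54.Schub Pool.Agent.helper54.Expl Pool.Agent.helper58.Far

private lemma shf_wdn (r : ℕ) : ∀ l q, wdn l (q + r) = (wdn l q).map (fun j => j + r)
  | 0, _ => rfl
  | l + 1, q => by
    rw [wdn, wdn, List.map_append, ← shf_wdn r l (q + 1), show q + r + 1 = q + 1 + r by ring]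
    rfl

private lemma shf_wsc (r : ℕ) : ∀ l q, wsc l (q + r) = (wsc l q).map (fun j => j + r)
  | 0, _ => rfl
  | l + 1, q => by
    rw [wsc, wsc, List.map_append, ← shf_wdn r (l + 1) q, ← shf_wsc r l (q + 1),
      show q + r + 1 = q + 1 + r by ring]

private lemma shf_wA (r l q : ℕ) : ∀ p, wA l (q + r) p = (wA l q p).map (fun j => j + r)
  | 0 => by rw [wA, wA, shf_wsc]
  | p + 1 => by rw [wA, wA, List.map_append, shf_wdn, shf_wA r l q p]

private lemma shf_one (r : ℕ) (τ : Perm ℕ) : sh r τ = 1 ↔ τ = 1 := by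
  constructor
  · intro h
    ext x
    have h1 := congrArg (fun w : Perm ℕ => w (x + r)) h
    simp only [sh_apply, Perm.one_apply] at h1
    rw [if_neg (by omega), Nat.add_sub_cancel] at h1
    rw [Perm.one_apply]
    omega
  · intro h
    subst h
    ext x
    rw [sh_apply, Perm.one_apply, Perm.one_apply]
    split_ifs <;> omega

private lemma shf_del (r : ℕ) (τ : Perm ℕ) : del ℚ (sh r τ) = del ℚ τ := by
  classical
  by_cases h : τ = 1
  · have h2 := (shf_one r τ).2 h
    rw [h2, h]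
  · rw [del_ne h, del_ne]
    intro h2
    exact h ((shf_one r τ).1 h2)

private lemma shf_sj (r j : ℕ) (τ : Perm ℕ) : sj (j + r) * sh r τ = sh r (sj j * τ) := by
  ext x
  rw [Perm.mul_apply, sh_apply, sh_apply, Perm.mul_apply]
  by_cases h : x < r
  · rw [if_pos h, if_pos h, sj_apply, if_neg (by omega), if_neg (by omega)]
  · rw [if_neg h, if_neg h, sj_apply, sj_apply]
    split_ifs <;> omega

private lemma shf_lt (r j : ℕ) (τ : Perm ℕ) :
    (sh r τ)⁻¹ (j + r + 1) < (sh r τ)⁻¹ (j + r) ↔ τ⁻¹ (j + 1) < τ⁻¹ j := by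
  rw [sh_inv_apply, sh_inv_apply, if_neg (by omega), if_neg (by omega),
    show j + r + 1 - r = j + 1 by omega, Nat.add_sub_cancel]
  omega

private lemma shf_wp (r : ℕ) (x : ℚ) : ∀ (L : List ℕ) (τ : Perm ℕ),
    wp (lam ℚ) x (L.map (fun j => j + r)) (del ℚ) (sh r τ) = wp (lam ℚ) x L (del ℚ) τ
  | [], τ => shf_del r τ
  | (j :: L), τ => by
    rw [List.map_cons, wp_cons, wp_cons, Module.End.mul_apply, Module.End.mul_apply, fac_apply,
      fac_apply, Pi.add_apply, Pi.add_apply, Pi.smul_apply, Pi.smul_apply, lam_apply, lam_apply,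
      shf_wp r x L τ, shf_sj, shf_wp r x L (sj j * τ)]
    congr 2
    simp only [shf_lt r j τ]

theorem gp_sh (r l p : ℕ) (τ : Perm ℕ) : gp r l p (sh r τ) = gp 0 l p τ := by
  have e : ∀ m : ℕ, ∀ w : Perm ℕ, gp m l p w = wp (lam ℚ) (1 : ℚ) (wA l m p) (del ℚ) w := by
    intro m w
    rw [wp_wA, AA, ← sch_eq_schx]
    rfl
  rw [e, e]
  have h := shf_wA r l 0 p
  rw [zero_add] at h
  rw [h]
  exact shf_wp r 1 (wA l 0 p) τ

theorem exists_sh (m b : ℕ) (τ : Perm ℕ) (h1 : FB m τ) (h2 : FA (m + b) τ) :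
    ∃ τ0 : Perm ℕ, FA b τ0 ∧ τ = sh m τ0 := by
  have g1 : ∀ x, m ≤ τ (x + m) := fun x => h1.le (by omega)
  have g2 : ∀ x, m ≤ τ⁻¹ (x + m) := fun x => h1.inv.le (by omega)
  let τ0 : Perm ℕ :=
    { toFun := fun x => τ (x + m) - m
      invFun := fun x => τ⁻¹ (x + m) - m
      left_inv := by
        intro x
        show τ⁻¹ (τ (x + m) - m + m) - m = x
        rw [Nat.sub_add_cancel (g1 x), ← Perm.mul_apply, inv_mul_cancel, Perm.one_apply]
        omega
      right_inv := by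
        intro x
        show τ (τ⁻¹ (x + m) - m + m) - m = x
        rw [Nat.sub_add_cancel (g2 x), ← Perm.mul_apply, mul_inv_cancel, Perm.one_apply]
        omega }
  have e0 : ∀ x, τ0 x = τ (x + m) - m := fun x => rfl
  refine ⟨τ0, ?_, ?_⟩
  · intro x hx
    rw [e0, h2 (x + m) (by omega)]
    omega
  · ext x
    rw [sh_apply]
    by_cases h : x < m
    · rw [if_pos h, h1 x h]
    · rw [if_neg h, e0, Nat.sub_add_cancel (by omega : m ≤ x)]
      have := h1.le (show m ≤ x by omega)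
      omega

theorem fb_sh (m : ℕ) (τ : Perm ℕ) : FB m (sh m τ) := by
  intro x hx
  rw [sh_apply, if_pos hx]

theorem fa_sh (m b : ℕ) (τ : Perm ℕ) (h : FA b τ) : FA (m + b) (sh m τ) := by
  intro x hx
  rw [sh_apply, if_neg (by omega), h (x - m) (by omega)]
  omega

end Pool.Agent.helper54.Sum
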