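import Pool.Agent.helper54.Sum.Shf

/-!
# SUM-Swp: exchanging two direct summands

Proof.  Let `c = e - k`.  `pm_split` at `e` and then at `k` (`Expl/Layers`) gives `w = β * τ * δ` with
`FA k β`, `FB k τ`, `FA e τ`, `FB e δ`, `FA n δ`; `τ = sh k γ` with `FA c γ` (`exists_sh`).  With
`D = 1` if `e = n` and `D = cf δ (dn … ^ e * sch …)` (`val_split` with `n = e + l' + 1`) otherwise:
`val n w = val e (β * τ) * D` and `val e (β * τ) = val k β * gp k (c - 1) k τ =
val k β * gp 0 (c - 1) k γ` (`val_split`, `gp_sh`).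
Put `w' = γ * sh c β * δ` (`FA c γ`, `FB c (sh c β)`, `FA e (sh c β)` as `c + k = e`):
`val n w' = val c γ * gp 0 (k - 1) c β * D`.  All three factors of `val n w` are positive because
`val n w ≥ val n 1 = 1 > 0` (`val_one` in `helper58/Far/Window`, or `one_le_val`) and everything is
nonnegative (`nn_dn`, `nn_sch`, `val_nonneg`).  `val n w' ≤ val n w` gives the inequality.  For the
maximality of `β`: replace `β` by `β'` in `w` and cancel `gp … * D > 0`.
(For `FA n δ` see the end of `AdjLayers.eq` in `Expl/Layers`; for the case `e = n`, `δ = 1`, see the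
end of `adj_layers`.)
-/

set_option autoImplicit false

namespace Pool.Agent.helper54.Sum

open Finset Equiv Pool.Agent.helper54.Schub Pool.Agent.helper54.Expl Pool.Agent.helper58.Far

/-- the part above a cut point is a nonnegative factor -/
lemma upper_factor' {e n : ℕ} (hen : e ≤ n) {δ : Perm ℕ} (h1 : FB e δ) (h2 : FA n δ) :
    ∃ D : ℚ, 0 ≤ D ∧ ∀ ρ : Perm ℕ, FA e ρ → val n (ρ * δ) = val e ρ * D := by
  rcases Nat.lt_or_ge e n with h | h
  · obtain ⟨l, rfl⟩ : ∃ l, n = e + l + 1 := ⟨n - e - 1, by omega⟩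
    exact ⟨_, ((nn_dn l e).pow e).mul (nn_sch l e) _ del_nonneg δ, fun ρ hρ => val_split hρ h1⟩
  · have hen' : n = e := by omega
    subst hen'
    have h3 : δ = 1 := by
      ext x
      by_cases hx : x < n
      · rw [h1 x hx]; rfl
      · rw [h2 x (by omega)]; rfl
    exact ⟨1, zero_le_one, fun ρ _ => by rw [h3, mul_one, mul_one]⟩

lemma val_mul_sh {a b : ℕ} (hb : 0 < b) {σ τ : Perm ℕ} (h1 : FA a σ) (h2 : FA b τ) :
    val (a + b) (σ * sh a τ) = val a σ * gp 0 (b - 1) a τ := by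
  obtain ⟨l, rfl⟩ : ∃ l, b = l + 1 := ⟨b - 1, by omega⟩
  rw [Nat.add_sub_cancel, ← add_assoc, val_split h1 (fb_sh a τ), ← gp_sh a l a τ, gp]

theorem swap0 (n k e : ℕ) (w : Perm ℕ) (hw : FA n w) (hmax : ∀ w', FA n w' → val n w' ≤ val n w)
    (hk0 : 0 < k) (hke : k < e) (hen : e ≤ n) (h1 : PM k w) (h2 : PM e w) :
    ∃ β γ : Perm ℕ, FA k β ∧ FA (e - k) γ ∧ (∀ β', FA k β' → val k β' ≤ val k β) ∧
      gp 0 (k - 1) (e - k) β * val (e - k) γ ≤ val k β * gp 0 (e - k - 1) k γ := by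
  obtain ⟨c, hc⟩ : ∃ c, c = e - k := ⟨_, rfl⟩
  have hec : e = k + c := by omega
  have hc0 : 0 < c := by omega
  -- splitting
  obtain ⟨ρ, δ, hρ, hδ, hwe, hρw⟩ := pm_split h2
  have hδn : FA n δ := by
    intro x hx
    have h3 := hw x hx
    rw [hwe, Perm.mul_apply, hρ _ (hδ.le (by omega))] at h3
    exact h3
  have hpm : PM k ρ := by
    intro x
    by_cases hx : x < e
    · rw [hρw x hx]; exact h1 x
    · rw [hρ x (by omega)]
  obtain ⟨β, τ, hβ, hτ, hρe, -⟩ := pm_split hpm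
  have hτe : FA e τ := by
    intro x hx
    have h3 := hρ x hx
    rw [hρe, Perm.mul_apply, hβ _ (hτ.le (by omega))] at h3
    exact h3
  obtain ⟨γ, hγ, hτγ⟩ := exists_sh k c τ hτ (by rw [← hec]; exact hτe)
  obtain ⟨D, hD0, hD⟩ := upper_factor' hen hδ hδn
  have v1 : ∀ β' : Perm ℕ, FA k β' → FA e (β' * sh k γ) ∧
      val n (β' * sh k γ * δ) = val k β' * gp 0 (c - 1) k γ * D := by
    intro β' hβ'
    have f1 : FA e (β' * sh k γ) :=
      (hβ'.mono (by omega)).mul (by rw [hec]; exact fa_sh k c γ hγ)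
    refine ⟨f1, ?_⟩
    rw [hD _ f1, hec, val_mul_sh hc0 hβ' hγ]
  have v2 : FA e (γ * sh c β) ∧ val n (γ * sh c β * δ) = val c γ * gp 0 (k - 1) c β * D := by
    have hec' : e = c + k := by omega
    have f1 : FA e (γ * sh c β) :=
      (hγ.mono (by omega)).mul (by rw [hec']; exact fa_sh c k β hβ)
    refine ⟨f1, ?_⟩
    rw [hD _ f1, hec', val_mul_sh hk0 hγ hβ]
  have hw1 : val n w = val k β * gp 0 (c - 1) k γ * D := by
    rw [hwe, hρe, hτγ]; exact (v1 β hβ).2
  have hpos : 0 < val k β * gp 0 (c - 1) k γ * D := by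
    rw [← hw1]
    exact lt_of_lt_of_le one_pos (one_le_val (by omega) hw)
  have hD1 : 0 < D := by
    rcases hD0.eq_or_lt with h | h
    · rw [← h, mul_zero] at hpos; exact absurd hpos (lt_irrefl _)
    · exact h
  have hbg : 0 < val k β * gp 0 (c - 1) k γ := (mul_pos_iff_of_pos_right hD1).1 hpos
  have hg : 0 < gp 0 (c - 1) k γ := by
    have b0 := val_nonneg k β
    rcases b0.eq_or_lt with h | h
    · rw [← h, zero_mul] at hbg; exact absurd hbg (lt_irrefl _)
    · exact (mul_pos_iff_of_pos_left h).1 hbg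
  refine ⟨β, γ, hβ, by rw [← hc]; exact hγ, ?_, ?_⟩
  · intro β' hβ'
    obtain ⟨f1, f2⟩ := v1 β' hβ'
    have h3 := hmax _ ((f1.mono hen).mul hδn)
    rw [f2, hw1] at h3
    exact le_of_mul_le_mul_right (le_of_mul_le_mul_right h3 hD1) hg
  · rw [← hc]
    have h3 := hmax _ ((v2.1.mono hen).mul hδn)
    rw [v2.2, hw1] at h3
    have h4 := le_of_mul_le_mul_right h3 hD1
    rw [mul_comm (val c γ)] at h4
    exact h4

end Pool.Agent.helper54.Sum
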